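import Mathlib

/-!
# Group von Neumann algebras

`E G = ℓ²(G)`, `u g` = left translation by `g`, `vn K` = the von Neumann algebra generated by the
`u k`, `k ∈ K` (the double commutant; by the bicommutant theorem this is the weak-operator closure
of the span of the `u k`).  `cf x g` is the Fourier coefficient `⟨δ_g, x δ_1⟩ = τ(u_g^* x)` of an
operator `x`.
-/

set_option autoImplicit false
set_option linter.unusedSectionVars false

open scoped ComplexConjugate

noncomputable section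

namespace Pool.Agent.Helper35.VN

/-- The Hilbert space `ℓ²(G)`. -/
def E (G : Type*) : Type _ := lp (fun _ : G => ℂ) 2

instance (G : Type*) : NormedAddCommGroup (E G) :=
  inferInstanceAs (NormedAddCommGroup (lp (fun _ : G => ℂ) 2))

instance (G : Type*) : InnerProductSpace ℂ (E G) :=
  inferInstanceAs (InnerProductSpace ℂ (lp (fun _ : G => ℂ) 2))

instance (G : Type*) : CompleteSpace (E G) :=
  inferInstanceAs (CompleteSpace (lp (fun _ : G => ℂ) 2))

/-- The value of a vector at a point. -/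
def E.val {G : Type*} (f : E G) : G → ℂ := fun x => (show lp (fun _ : G => ℂ) 2 from f) x

instance (G : Type*) : CoeFun (E G) (fun _ => G → ℂ) := ⟨E.val⟩

section api

variable {G : Type*}

@[ext] lemma E.ext {f k : E G} (h : ∀ x, f x = k x) : f = k := lp.ext (funext h)

@[simp] lemma E.add_apply (f k : E G) (x : G) : (f + k) x = f x + k x := rfl

@[simp] lemma E.sub_apply (f k : E G) (x : G) : (f - k) x = f x - k x := rfl

@[simp] lemma E.smul_apply (c : ℂ) (f : E G) (x : G) : (c • f) x = c * f x := rfl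

@[simp] lemma E.zero_apply (x : G) : (0 : E G) x = 0 := rfl

lemma E.sum_apply {ι : Type*} (s : Finset ι) (f : ι → E G) (x : G) :
    (∑ i ∈ s, f i) x = ∑ i ∈ s, f i x := by
  classical
  induction s using Finset.induction_on with
  | empty => simp
  | insert a s ha ih => rw [Finset.sum_insert ha, Finset.sum_insert ha, E.add_apply, ih]

lemma E.inner_eq_tsum (f k : E G) : (inner ℂ f k : ℂ) = ∑' x, conj (f x) * k x := by
  have h := lp.inner_eq_tsum (𝕜 := ℂ) (G := fun _ : G => ℂ) f k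
  refine h.trans (tsum_congr fun x => ?_)
  rw [RCLike.inner_apply, mul_comm]
  rfl

lemma E.summable_sq (f : E G) : Summable fun x => ‖f x‖ ^ 2 := by
  have h := lp.memℓp (show lp (fun _ : G => ℂ) 2 from f)
  rw [memℓp_gen_iff (by simp)] at h
  have h2 : (fun i => ‖(show lp (fun _ : G => ℂ) 2 from f) i‖ ^ (2 : ENNReal).toReal) =
      fun x => ‖f x‖ ^ 2 := by
    funext x
    simp [E.val]
  rwa [h2] at h

lemma E.norm_sq_eq_tsum (f : E G) : ‖f‖ ^ 2 = ∑' x, ‖f x‖ ^ 2 := by
  have h := lp.norm_rpow_eq_tsum (p := 2) (by simp) (show lp (fun _ : G => ℂ) 2 from f)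
  have h2 : (fun i => ‖(show lp (fun _ : G => ℂ) 2 from f) i‖ ^ (2 : ENNReal).toReal) =
      fun x => ‖f x‖ ^ 2 := by
    funext x
    simp [E.val]
  rw [h2] at h
  have h3 : ‖f‖ ^ (2 : ENNReal).toReal = ‖f‖ ^ 2 := by simp
  rw [← h3]
  exact h

lemma memlp_of_summable (f : G → ℂ) (h : Summable fun x => ‖f x‖ ^ 2) :
    Memℓp (fun x => f x) 2 := by
  rw [memℓp_gen_iff (by simp)]
  simpa using h

/-- A square summable function as a vector. -/
def E.mk (f : G → ℂ) (h : Summable fun x => ‖f x‖ ^ 2) : E G :=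
  (⟨f, memlp_of_summable f h⟩ : lp (fun _ : G => ℂ) 2)

@[simp] lemma E.mk_apply (f : G → ℂ) (h : Summable fun x => ‖f x‖ ^ 2) (x : G) :
    E.mk f h x = f x := rfl

lemma E.norm_le {f k : E G} (h : ∀ x, ‖f x‖ ≤ ‖k x‖) : ‖f‖ ≤ ‖k‖ := by
  have h1 : ‖f‖ ^ 2 ≤ ‖k‖ ^ 2 := by
    rw [E.norm_sq_eq_tsum, E.norm_sq_eq_tsum]
    refine (E.summable_sq f).tsum_le_tsum (fun x => ?_) (E.summable_sq k)
    exact pow_le_pow_left₀ (norm_nonneg _) (h x) 2
  exact le_of_sq_le_sq h1 (norm_nonneg _)

end api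

section perm

variable {ι : Type*}

lemma perm_aux (σ : Equiv.Perm ι) (f : E ι) : Summable fun x => ‖f (σ x)‖ ^ 2 :=
  (Equiv.summable_iff (f := fun x => ‖f x‖ ^ 2) σ).2 (E.summable_sq f)

/-- The unitary of `ℓ²(ι)` induced by a permutation of `ι`: `(perm σ f) x = f (σ⁻¹ x)`. -/
def perm (σ : Equiv.Perm ι) : E ι ≃ₗᵢ[ℂ] E ι where
  toFun f := E.mk (fun x => f (σ.symm x)) (perm_aux σ.symm f)
  invFun f := E.mk (fun x => f (σ x)) (perm_aux σ f)
  left_inv f := by ext x; simp
  right_inv f := by ext x; simp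
  map_add' f g := by ext x; simp
  map_smul' c f := by ext x; simp
  norm_map' f := by
    have h : ‖E.mk (fun x => f (σ.symm x)) (perm_aux σ.symm f)‖ ^ 2 = ‖f‖ ^ 2 := by
      rw [E.norm_sq_eq_tsum, E.norm_sq_eq_tsum]
      exact Equiv.tsum_eq σ.symm (fun x => ‖f x‖ ^ 2)
    exact (sq_eq_sq₀ (norm_nonneg _) (norm_nonneg _)).1 h

@[simp] lemma perm_apply (σ : Equiv.Perm ι) (f : E ι) (x : ι) : perm σ f x = f (σ.symm x) := rfl

end perm

variable {G : Type*} [Group G]

open Classical in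
/-- The unit vector `δ_g`. -/
def dl (g : G) : E G := (lp.single 2 g (1 : ℂ) : lp (fun _ : G => ℂ) 2)

lemma dl_apply (g x : G) [Decidable (x = g)] : dl g x = if x = g then 1 else 0 := by
  classical
  unfold dl E.val
  change (lp.single 2 g (1 : ℂ) : lp (fun _ : G => ℂ) 2) x = _
  rw [lp.single_apply, Pi.single_apply]
  congr

/-- Left translation by `g`: `(u g f) x = f (g⁻¹ x)`. -/
def u (g : G) : E G →L[ℂ] E G := (perm (Equiv.mulLeft g)).toContinuousLinearEquiv

/-- Right translation by `g`: `(r g f) x = f (x g)`. -/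
def r (g : G) : E G →L[ℂ] E G := (perm (Equiv.mulRight g⁻¹)).toContinuousLinearEquiv

@[simp] lemma u_apply (g : G) (f : E G) (x : G) : u g f x = f (g⁻¹ * x) := rfl

@[simp] lemma r_apply (g : G) (f : E G) (x : G) : r g f x = f (x * g) := by
  change f (x * (g⁻¹)⁻¹) = _
  rw [inv_inv]

lemma u_dl (g x : G) : u g (dl x) = dl (g * x) := by
  classical
  ext y
  rw [u_apply, dl_apply, dl_apply]
  simp [inv_mul_eq_iff_eq_mul]

lemma r_dl (g x : G) : r g (dl x) = dl (x * g⁻¹) := by
  classical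
  ext y
  rw [r_apply, dl_apply, dl_apply]
  simp [eq_mul_inv_iff_mul_eq]

lemma u_mul (g h : G) : u (g * h) = u g * u h := by
  ext f x
  simp [mul_assoc]

@[simp] lemma u_one : u (1 : G) = 1 := by
  ext f x
  simp

lemma r_mul (g h : G) : r (g * h) = r g * r h := by
  ext f x
  simp [mul_assoc]

@[simp] lemma r_one : r (1 : G) = 1 := by
  ext f x
  simp

lemma u_r (g h : G) : u g * r h = r h * u g := by
  ext f x
  simp [mul_assoc]

/-- Coefficients are inner products with `δ`. -/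
lemma inner_dl (g : G) (f : E G) : inner ℂ (dl g) f = f g := by
  classical
  rw [E.inner_eq_tsum, tsum_eq_single g]
  · simp [dl_apply]
  · intro x hx
    simp [dl_apply, hx]

lemma hasSum_dl (f : E G) : HasSum (fun g => f g • dl g) f := by
  classical
  have h : HasSum (fun g => (lp.single 2 g ((show lp (fun _ : G => ℂ) 2 from f) g) :
      lp (fun _ : G => ℂ) 2)) (show lp (fun _ : G => ℂ) 2 from f) :=
    lp.hasSum_single (p := 2) (by simp) _
  have h2 : (fun g => f g • dl g) = (fun g => ((lp.single 2 g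
      ((show lp (fun _ : G => ℂ) 2 from f) g) : lp (fun _ : G => ℂ) 2) : E G)) := by
    funext g
    ext x
    rw [E.smul_apply, dl_apply]
    change _ = (lp.single 2 g ((show lp (fun _ : G => ℂ) 2 from f) g) :
      lp (fun _ : G => ℂ) 2) x
    rw [lp.single_apply, Pi.single_apply]
    by_cases hx : x = g
    · subst hx
      simp [E.val]
    · simp [hx]
  rw [h2]
  exact h

lemma star_u (g : G) : star (u g) = u g⁻¹ := by
  rw [ContinuousLinearMap.star_eq_adjoint]
  symm
  rw [ContinuousLinearMap.eq_adjoint_iff]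
  intro f k
  rw [E.inner_eq_tsum, E.inner_eq_tsum]
  rw [← Equiv.tsum_eq (Equiv.mulLeft g⁻¹)]
  refine tsum_congr fun x => ?_
  simp

lemma star_r (g : G) : star (r g) = r g⁻¹ := by
  rw [ContinuousLinearMap.star_eq_adjoint]
  symm
  rw [ContinuousLinearMap.eq_adjoint_iff]
  intro f k
  rw [E.inner_eq_tsum, E.inner_eq_tsum]
  rw [← Equiv.tsum_eq (Equiv.mulRight g)]
  refine tsum_congr fun x => ?_
  simp

/-- The set of left translations by elements of `K`. -/
def uSet (K : Subgroup G) : Set (E G →L[ℂ] E G) := {x | ∃ k ∈ K, x = u k}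

lemma star_uSet (K : Subgroup G) : star (uSet K) = uSet K := by
  ext x
  constructor
  · rintro ⟨k, hk, h⟩
    refine ⟨k⁻¹, K.inv_mem hk, ?_⟩
    rw [← star_u, ← h, star_star]
  · rintro ⟨k, hk, rfl⟩
    exact ⟨k⁻¹, K.inv_mem hk, star_u k⟩

/-- The group von Neumann algebra of the subgroup `K` acting on `ℓ²(G)`: the double commutant of
the left translations `u k`, `k ∈ K`. -/
def vn (K : Subgroup G) : VonNeumannAlgebra (E G) where
  toStarSubalgebra := StarSubalgebra.centralizer ℂ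
    ((StarSubalgebra.centralizer ℂ (uSet K) : StarSubalgebra ℂ (E G →L[ℂ] E G)) : Set _)
  centralizer_centralizer' := by simp

lemma mem_vn_iff {K : Subgroup G} {x : E G →L[ℂ] E G} :
    x ∈ vn K ↔ ∀ t : E G →L[ℂ] E G, (∀ k ∈ K, u k * t = t * u k) → t * x = x * t := by
  have h1 : x ∈ vn K ↔ x ∈ (StarSubalgebra.centralizer ℂ
    ((StarSubalgebra.centralizer ℂ (uSet K) : StarSubalgebra ℂ (E G →L[ℂ] E G)) : Set _)) :=
    Iff.rfl
  rw [h1, StarSubalgebra.mem_centralizer_iff]
  have h2 : ∀ t : E G →L[ℂ] E G, t ∈ ((StarSubalgebra.centralizer ℂ (uSet K) :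
      StarSubalgebra ℂ (E G →L[ℂ] E G)) : Set _) ↔ ∀ k ∈ K, u k * t = t * u k := by
    intro t
    rw [SetLike.mem_coe, StarSubalgebra.mem_centralizer_iff]
    constructor
    · intro h k hk
      exact (h (u k) ⟨k, hk, rfl⟩).1
    · rintro h _ ⟨k, hk, rfl⟩
      refine ⟨h k hk, ?_⟩
      rw [star_u]
      exact h _ (K.inv_mem hk)
  constructor
  · intro h t ht
    exact (h t ((h2 t).2 ht)).1
  · intro h t ht
    refine ⟨h t ((h2 t).1 ht), h (star t) ?_⟩
    intro k hk
    have := (h2 t).1 ht k⁻¹ (K.inv_mem hk)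
    have h3 := congrArg star this
    rw [star_mul, star_mul, star_u, inv_inv] at h3
    exact h3.symm

lemma u_mem (K : Subgroup G) {k : G} (hk : k ∈ K) : u k ∈ vn K := by
  rw [mem_vn_iff]
  intro t ht
  exact (ht k hk).symm

lemma vn_mono {K L : Subgroup G} (h : K ≤ L) : vn K ≤ vn L := by
  intro x hx
  have hx' : x ∈ vn K := hx
  show x ∈ vn L
  rw [mem_vn_iff] at hx' ⊢
  intro t ht
  exact hx' t fun k hk => ht k (h hk)

/-- The group von Neumann algebra `L(G)`. -/
abbrev LG (G : Type*) [Group G] : VonNeumannAlgebra (E G) := vn (⊤ : Subgroup G)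

lemma mem_top_of_mem {K : Subgroup G} {x : E G →L[ℂ] E G} (h : x ∈ vn K) : x ∈ LG G :=
  vn_mono le_top h

lemma comm_r {x : E G →L[ℂ] E G} (h : x ∈ LG G) (g : G) : r g * x = x * r g := by
  rw [mem_vn_iff] at h
  exact h (r g) fun k _ => u_r k g

/-- Fourier coefficients. -/
def cf (x : E G →L[ℂ] E G) (g : G) : ℂ := x (dl 1) g

lemma apply_dl {x : E G →L[ℂ] E G} (h : x ∈ LG G) (g k : G) : x (dl k) g = cf x (g * k⁻¹) := by
  have h1 : dl k = r k⁻¹ (dl (1 : G)) := by rw [r_dl]; simp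
  rw [h1]
  have h2 : r k⁻¹ (x (dl (1 : G))) = x (r k⁻¹ (dl (1 : G))) :=
    congrArg (fun t => t (dl (1 : G))) (comm_r h k⁻¹)
  rw [← h2, r_apply]
  rfl

/-- `δ_1` is separating. -/
lemma ext_cf {x y : E G →L[ℂ] E G} (hx : x ∈ LG G) (hy : y ∈ LG G) (h : ∀ g, cf x g = cf y g) :
    x = y := by
  have h1 : ∀ k : G, x (dl k) = y (dl k) := by
    intro k
    ext g
    rw [apply_dl hx, apply_dl hy, h]
  ext1 f
  have h2 := (hasSum_dl f)
  have h3 := h2.mapL x
  have h4 := h2.mapL y
  have h5 : (fun g => x (f g • dl g)) = fun g => y (f g • dl g) := by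
    funext g
    rw [map_smul, map_smul, h1]
  rw [h5] at h3
  exact h3.unique h4

end Pool.Agent.Helper35.VN
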