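import Pool.Agent.Helper35.VN.Level

/-!
# Chains of normal subgroups
-/

set_option autoImplicit false
set_option linter.unusedSectionVars false

open scoped ComplexConjugate

noncomputable section

namespace Pool.Agent.Helper35.VN

variable {G : Type*} [Group G] {Γ Λ : Type*} [Group Γ] [Group Λ]

section Good

variable {θ : Iso Γ Λ} {N : Subgroup Γ} {H : Subgroup Λ} {w : E Λ →L[ℂ] E Λ}

lemma U_mul (g k : G) : (U (g * k) : (LG G).toStarSubalgebra) = U g * U k :=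
  Subtype.ext (u_mul g k)

lemma W_mul (hw : IsU w) (g k : Γ) : star w * (θ (U (g * k)) : E Λ →L[ℂ] E Λ) * w =
    (star w * (θ (U g) : E Λ →L[ℂ] E Λ) * w) * (star w * (θ (U k) : E Λ →L[ℂ] E Λ) * w) := by
  have h1 : (θ (U (g * k)) : E Λ →L[ℂ] E Λ) = (θ (U g) : E Λ →L[ℂ] E Λ) * (θ (U k)) := by
    rw [U_mul, map_mul]
    rfl
  rw [h1]
  have h2 : (star w * (θ (U g) : E Λ →L[ℂ] E Λ) * w) *
      (star w * (θ (U k) : E Λ →L[ℂ] E Λ) * w) =
      star w * (θ (U g) : E Λ →L[ℂ] E Λ) * (w * star w) * (θ (U k) : E Λ →L[ℂ] E Λ) * w := by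
    simp only [mul_assoc]
  rw [h2, hw.2.2, mul_one]
  simp only [mul_assoc]

lemma Good.mul [H.Normal] (hw : IsU w) {g k : Γ} {c d : Λ} (hg : Good θ H w g c)
    (hk : Good θ H w k d) : Good θ H w (g * k) (c * d) := by
  unfold Good at *
  rw [W_mul hw, mul_inv_rev, u_mul]
  have h1 := mul_mem hg (conj_u_mem c hk)
  convert h1 using 1
  have h2 : star w * (θ (U g) : E Λ →L[ℂ] E Λ) * w * u c⁻¹ *
      (u c * (star w * (θ (U k) : E Λ →L[ℂ] E Λ) * w * u d⁻¹) * u c⁻¹) =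
      star w * (θ (U g) : E Λ →L[ℂ] E Λ) * w * (u c⁻¹ * u c) *
      (star w * (θ (U k) : E Λ →L[ℂ] E Λ) * w) * (u d⁻¹ * u c⁻¹) := by
    simp only [mul_assoc]
  rw [h2, ← u_mul c⁻¹ c, inv_mul_cancel, u_one, mul_one]

lemma Good.iff [hH : H.Normal] (hw : IsU w) {g : Γ} {c d : Λ} (hg : Good θ H w g c) :
    Good θ H w g d ↔ c⁻¹ * d ∈ H := by
  have hWU := isU_W θ hw g
  have hg' : star w * (θ (U g) : E Λ →L[ℂ] E Λ) * w * u c⁻¹ ∈ vn H := hg
  have haU : IsU (star w * (θ (U g) : E Λ →L[ℂ] E Λ) * w * u c⁻¹) := hWU.mul (isU_u _)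
  have h1 : star w * (θ (U g) : E Λ →L[ℂ] E Λ) * w * u d⁻¹ =
      (star w * (θ (U g) : E Λ →L[ℂ] E Λ) * w * u c⁻¹) * u (c * d⁻¹) := by
    rw [mul_assoc _ (u c⁻¹), ← u_mul, inv_mul_cancel_left]
  have h2 : Good θ H w g d ↔ c * d⁻¹ ∈ H := by
    unfold Good
    rw [h1]
    constructor
    · intro h
      have h3 := mul_mem (star_mem hg') h
      rw [← mul_assoc, haU.2.1, one_mul] at h3
      exact mem_of_u_mem h3
    · intro h
      exact mul_mem hg' (u_mem H h)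
  rw [h2]
  constructor
  · intro h
    have h3 := hH.conj_mem _ (H.inv_mem h) c⁻¹
    have h4 : c⁻¹ * (c * d⁻¹)⁻¹ * c⁻¹⁻¹ = c⁻¹ * d := by group
    rwa [h4] at h3
  · intro h
    have h3 := hH.conj_mem _ (H.inv_mem h) c
    have h4 : c * (c⁻¹ * d)⁻¹ * c⁻¹ = c * d⁻¹ := by group
    rwa [h4] at h3

lemma good_one_iff (hl : Level θ N H w) (g : Γ) : Good θ H w g 1 ↔ g ∈ N := by
  unfold Good
  rw [inv_one, u_one, mul_one, ← hl (U g), coe_U]
  exact ⟨mem_of_u_mem, fun h => u_mem N h⟩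

/-- The isomorphism of the quotients. -/
theorem exists_quot (hθ : TracePreserving θ) [N.Normal] [H.Normal] (hl : Level θ N H w)
    (hw : IsU w) (hN : RelIcc N) :
    ∃ Φ : Γ ⧸ N ≃* Λ ⧸ H, ∀ (g : Γ) (c : Λ), Φ (g : Γ ⧸ N) = (c : Λ ⧸ H) ↔ Good θ H w g c := by
  choose f hf using fun g => hl.exists_good hw hN g
  let φ : Γ →* Λ ⧸ H := MonoidHom.mk' (fun g => (f g : Λ ⧸ H)) (by
    intro g k
    change ((f (g * k) : Λ) : Λ ⧸ H) = ((f g * f k : Λ) : Λ ⧸ H)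
    rw [QuotientGroup.eq]
    exact ((hf (g * k)).iff hw).1 ((hf g).mul hw (hf k)))
  have hφ : ∀ (g : Γ) (c : Λ), φ g = (c : Λ ⧸ H) ↔ Good θ H w g c := by
    intro g c
    change ((f g : Λ) : Λ ⧸ H) = _ ↔ _
    rw [QuotientGroup.eq, (hf g).iff hw]
  have hsurj : Function.Surjective φ := by
    intro y
    obtain ⟨c, rfl⟩ := QuotientGroup.mk_surjective y
    obtain ⟨g, hg⟩ := exists_cf_W_ne hθ hw c
    exact ⟨g, (hφ g c).2 (hl.good_of_cf hw hN hg)⟩
  have hker : φ.ker = N := by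
    ext g
    rw [MonoidHom.mem_ker, ← good_one_iff hl g, ← hφ g 1]
    rfl
  refine ⟨(QuotientGroup.quotientMulEquivOfEq hker.symm).trans
    (QuotientGroup.quotientKerEquivOfSurjective φ hsurj), fun g c => ?_⟩
  rw [← hφ]
  rfl

end Good

/-- Two consecutive levels. -/
lemma step {θ : Iso Γ Λ} {N N' : Subgroup Γ} (hNN : N' ≤ N) (hN' : RelIcc N') {H H' : Subgroup Λ}
    [hH : H.Normal] {w w' : E Λ →L[ℂ] E Λ} (hl : Level θ N H w) (hl' : Level θ N' H' w')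
    (hw : IsU w) (hw' : IsU w') : (∃ c : Λ, star w * (w' * u c) ∈ vn H) ∧ H' ≤ H := by
  set v := star w * w' with hv
  have hvU : IsU v := hw.adj.mul hw'
  have h1 : ∀ y ∈ vn H', v * y * star v ∈ vn H := by
    intro y hy
    obtain ⟨x, hx, hxy⟩ := hl'.exists_of_mem hw' hy
    have h2 := (hl x).1 (vn_mono hNN hx)
    rw [hxy] at h2
    convert h2 using 1
    rw [hv, star_mul, star_star]
    simp only [mul_assoc]
  obtain ⟨c, hc⟩ := hvU.exists_cf_ne
  have h3 : v * u c⁻¹ ∈ vn H := mem_coset (hl'.relIcc hw' hN') hvU.1 hvU.2.1 hvU.2.2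
    (fun h hh => h1 _ (u_mem H' hh)) hc
  refine ⟨⟨c⁻¹, by rw [← mul_assoc]; exact h3⟩, fun h hh => ?_⟩
  have haU : IsU (v * u c⁻¹) := hvU.mul (isU_u _)
  have h4 := h1 _ (u_mem H' hh)
  have h5 : star (v * u c⁻¹) * (v * u h * star v) * (v * u c⁻¹) = u (c * h * c⁻¹) := by
    rw [star_mul, star_u, inv_inv]
    have : u c * star v * (v * u h * star v) * (v * u c⁻¹) =
        u c * (star v * v) * u h * (star v * v) * u c⁻¹ := by simp only [mul_assoc]
    rw [this, hvU.2.1, mul_one, mul_one, u_mul, u_mul]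
  have h6 := mul_mem (mul_mem (star_mem h3) h4) h3
  rw [h5] at h6
  have h7 := hH.conj_mem _ (mem_of_u_mem h6) c⁻¹
  have h8 : c⁻¹ * (c * h * c⁻¹) * c⁻¹⁻¹ = h := by group
  rwa [h8] at h7

/-- Compatibility of the coset relations of consecutive levels. -/
lemma Good.down {θ : Iso Γ Λ} {H H' : Subgroup Λ} [hH : H.Normal] (hHH : H' ≤ H)
    {w w' : E Λ →L[ℂ] E Λ} (hw' : IsU w') (hv : star w * w' ∈ vn H) {g : Γ} {c : Λ}
    (h : Good θ H' w' g c) : Good θ H w g c := by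
  unfold Good at *
  have h1 := vn_mono hHH h
  have h2 := mul_mem (mul_mem hv h1) (conj_u_mem c (star_mem hv))
  convert h2 using 1
  rw [star_mul, star_star]
  have h3 : star w * w' * (star w' * (θ (U g) : E Λ →L[ℂ] E Λ) * w' * u c⁻¹) *
      (u c * (star w' * w) * u c⁻¹) =
      star w * (w' * star w') * (θ (U g) : E Λ →L[ℂ] E Λ) * (w' * (u c⁻¹ * u c) * star w') * w *
        u c⁻¹ := by
    simp only [mul_assoc]
  rw [h3, ← u_mul, inv_mul_cancel, u_one, mul_one, hw'.2.2, mul_one, mul_one]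

/-- Masses on cosets as sums. -/
lemma tsum_coset (H : Subgroup G) (x : E G →L[ℂ] E G) (c : G) :
    ∑' h : H, ‖cf x (c * h)‖ ^ 2 = mass x {g | c⁻¹ * g ∈ H} := by
  unfold mass
  rw [E.norm_sq_eq_tsum, ← (Equiv.mulLeft c).tsum_eq]
  have h1 := tsum_subtype (H : Set G) (fun g => ‖cf x (c * g)‖ ^ 2)
  refine h1.trans (tsum_congr fun g => ?_)
  simp only [Equiv.coe_mulLeft]
  by_cases hg : g ∈ H
  · rw [ind_apply_of_mem (by
      show c⁻¹ * (c * g) ∈ H
      rwa [inv_mul_cancel_left]), Set.indicator_of_mem (SetLike.mem_coe.2 hg)]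
    rfl
  · rw [ind_apply_of_notMem (fun h => hg (by
      have h' : c⁻¹ * (c * g) ∈ H := h
      rwa [inv_mul_cancel_left] at h')),
      Set.indicator_of_notMem (fun h => hg (SetLike.mem_coe.1 h))]
    simp

end Pool.Agent.Helper35.VN
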