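import Pool.Agent.Helper35.VN.Basic

/-!
# Fourier coefficients in group von Neumann algebras
-/

set_option autoImplicit false
set_option linter.unusedSectionVars false

open scoped ComplexConjugate

noncomputable section

namespace Pool.Agent.Helper35.VN

variable {G : Type*} [Group G]

lemma top_mul {x y : E G →L[ℂ] E G} {K : Subgroup G} (hx : x ∈ vn K) (hy : y ∈ vn K) :
    x * y ∈ vn K := mul_mem hx hy

lemma top_star {x : E G →L[ℂ] E G} {K : Subgroup G} (hx : x ∈ vn K) : star x ∈ vn K :=
  star_mem hx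

lemma smul_mem' {x : E G →L[ℂ] E G} {K : Subgroup G} (c : ℂ) (hx : x ∈ vn K) : c • x ∈ vn K := by
  rw [mem_vn_iff] at hx ⊢
  intro t ht
  rw [mul_smul_comm, hx t ht, smul_mul_assoc]

lemma inner_self' (f : E G) : inner ℂ f f = ((‖f‖ ^ 2 : ℝ) : ℂ) := by
  rw [inner_self_eq_norm_sq_to_K]
  norm_cast

lemma norm_dl (g : G) : ‖dl g‖ = 1 := by
  classical
  have h : (inner ℂ (dl g) (dl g) : ℂ) = 1 := by rw [inner_dl, dl_apply, if_pos rfl]
  rw [inner_self'] at h
  have h2 : ‖dl g‖ ^ 2 = 1 := by exact_mod_cast h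
  exact (pow_eq_one_iff_of_nonneg (norm_nonneg _) two_ne_zero).1 h2

lemma inner_star_left (x : E G →L[ℂ] E G) (f k : E G) :
    inner ℂ (star x f) k = inner ℂ f (x k) := by
  rw [ContinuousLinearMap.star_eq_adjoint, ContinuousLinearMap.adjoint_inner_left]

lemma inner_star_right (x : E G →L[ℂ] E G) (f k : E G) :
    inner ℂ f (star x k) = inner ℂ (x f) k := by
  rw [ContinuousLinearMap.star_eq_adjoint, ContinuousLinearMap.adjoint_inner_right]

lemma cf_eq_inner (x : E G →L[ℂ] E G) (g : G) : cf x g = inner ℂ (dl g) (x (dl 1)) :=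
  (inner_dl g _).symm

lemma cf_star {x : E G →L[ℂ] E G} (h : x ∈ LG G) (g : G) : cf (star x) g = conj (cf x g⁻¹) := by
  rw [cf_eq_inner, inner_star_right, ← inner_conj_symm, inner_dl, apply_dl h, one_mul]

lemma cf_u_mul (k : G) (x : E G →L[ℂ] E G) (g : G) : cf (u k * x) g = cf x (k⁻¹ * g) := rfl

lemma cf_mul_u {x : E G →L[ℂ] E G} (h : x ∈ LG G) (k g : G) : cf (x * u k) g = cf x (g * k⁻¹) := by
  change x (u k (dl 1)) g = _
  rw [u_dl, mul_one, apply_dl h]

lemma cf_u (k g : G) [Decidable (g = k)] : cf (u k) g = if g = k then 1 else 0 := by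
  change u k (dl 1) g = _
  rw [u_dl, mul_one, dl_apply]

lemma cf_one (g : G) [Decidable (g = 1)] : cf (1 : E G →L[ℂ] E G) g = if g = 1 then 1 else 0 := by
  change (dl (1 : G) : E G) g = _
  rw [dl_apply]

lemma cf_smul (c : ℂ) (x : E G →L[ℂ] E G) (g : G) : cf (c • x) g = c * cf x g := rfl

lemma cf_add (x y : E G →L[ℂ] E G) (g : G) : cf (x + y) g = cf x g + cf y g := rfl

lemma u_mem_top (g : G) : u g ∈ LG G := u_mem ⊤ (Subgroup.mem_top g)

lemma u_star_mul (g : G) : star (u g) * u g = 1 := by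
  rw [star_u, ← u_mul, inv_mul_cancel, u_one]

lemma u_mul_star (g : G) : u g * star (u g) = 1 := by
  rw [star_u, ← u_mul, mul_inv_cancel, u_one]

/-- The trace property. -/
lemma cf_mul_comm {x y : E G →L[ℂ] E G} (hx : x ∈ LG G) (hy : y ∈ LG G) :
    cf (x * y) 1 = cf (y * x) 1 := by
  have h : ∀ {a b : E G →L[ℂ] E G}, a ∈ LG G → b ∈ LG G →
      cf (a * b) 1 = ∑' g, cf b g * cf a g⁻¹ := by
    intro a b ha hb
    rw [cf_eq_inner, show (a * b) (dl 1) = a (b (dl 1)) from rfl, ← inner_star_left,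
      E.inner_eq_tsum]
    refine tsum_congr fun g => ?_
    have h1 : (star a (dl 1) : E G) g = conj (cf a g⁻¹) := cf_star ha g
    rw [h1]
    simp [cf, mul_comm]
  rw [h hx hy, h hy hx, ← Equiv.tsum_eq (Equiv.inv G)]
  refine tsum_congr fun g => ?_
  simp [mul_comm]

lemma ind_aux (A : Set G) (f : E G) : Summable fun x => ‖A.indicator (fun x => f x) x‖ ^ 2 := by
  refine (E.summable_sq f).of_nonneg_of_le (fun x => by positivity) fun x => ?_
  by_cases hx : x ∈ A <;> simp [hx]

/-- The operator of multiplication by the indicator function of `A`. -/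
def ind (A : Set G) : E G →L[ℂ] E G :=
  LinearMap.mkContinuous
    { toFun := fun f => E.mk (A.indicator (fun x => f x)) (ind_aux A f)
      map_add' := fun f k => by
        ext x
        by_cases hx : x ∈ A <;> simp [hx]
      map_smul' := fun c f => by
        ext x
        by_cases hx : x ∈ A <;> simp [hx] } 1 (by
      intro f
      rw [one_mul]
      refine E.norm_le fun x => ?_
      by_cases hx : x ∈ A <;> simp [hx])

lemma ind_apply_of_mem {A : Set G} {x : G} (h : x ∈ A) (f : E G) : ind A f x = f x := by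
  change A.indicator (fun x => f x) x = f x
  simp [h]

lemma ind_apply_of_notMem {A : Set G} {x : G} (h : x ∉ A) (f : E G) : ind A f x = 0 := by
  change A.indicator (fun x => f x) x = 0
  simp [h]

lemma ind_mul_ind (A : Set G) : ind A * ind A = ind A := by
  ext f x
  change ind A (ind A f) x = ind A f x
  by_cases hx : x ∈ A
  · rw [ind_apply_of_mem hx]
  · rw [ind_apply_of_notMem hx, ind_apply_of_notMem hx]

lemma star_ind (A : Set G) : star (ind A) = ind A := by
  rw [ContinuousLinearMap.star_eq_adjoint]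
  symm
  rw [ContinuousLinearMap.eq_adjoint_iff]
  intro f k
  rw [E.inner_eq_tsum, E.inner_eq_tsum]
  refine tsum_congr fun x => ?_
  by_cases hx : x ∈ A
  · rw [ind_apply_of_mem hx, ind_apply_of_mem hx]
  · rw [ind_apply_of_notMem hx, ind_apply_of_notMem hx]
    simp

lemma norm_ind_sq (A : Set G) (f : E G) : ‖ind A f‖ ^ 2 = (inner ℂ f (ind A f) : ℂ).re := by
  have h : (inner ℂ f (ind A f) : ℂ) = inner ℂ (ind A f) (ind A f) := by
    rw [← inner_star_left, star_ind]
    conv_rhs => rw [← inner_star_right, star_ind]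
    rw [show ind A (ind A f) = ind A f from congrArg (fun t => t f) (ind_mul_ind A),
      ← inner_star_left, star_ind]
  rw [h, inner_self_eq_norm_sq_to_K]
  norm_cast

/-- Membership in `vn K` in terms of coefficients. -/
lemma cf_eq_zero_of_mem {K : Subgroup G} {x : E G →L[ℂ] E G} (h : x ∈ vn K) {g : G} (hg : g ∉ K) :
    cf x g = 0 := by
  rw [mem_vn_iff] at h
  have h1 := h (ind (K : Set G)) (by
    intro k hk
    ext f y
    change ind (K : Set G) f (k⁻¹ * y) = ind (K : Set G) (u k f) y
    by_cases hy : y ∈ K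
    · rw [ind_apply_of_mem (SetLike.mem_coe.2 hy),
        ind_apply_of_mem (SetLike.mem_coe.2 (K.mul_mem (K.inv_mem hk) hy)), u_apply]
    · rw [ind_apply_of_notMem (fun h => hy (SetLike.mem_coe.1 h)), ind_apply_of_notMem]
      intro h2
      exact hy ((Subgroup.mul_mem_cancel_left K (K.inv_mem hk)).1 (SetLike.mem_coe.1 h2)))
  have h2 := congrArg (fun t => (t (dl 1) : E G) g) h1
  change ind (K : Set G) (x (dl 1)) g = x (ind (K : Set G) (dl 1)) g at h2
  rw [ind_apply_of_notMem (fun h => hg (SetLike.mem_coe.1 h))] at h2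
  have h3 : ind (K : Set G) (dl (1 : G)) = dl 1 := by
    classical
    ext y
    by_cases hy : y ∈ K
    · rw [ind_apply_of_mem (SetLike.mem_coe.2 hy)]
    · rw [ind_apply_of_notMem (fun h => hy (SetLike.mem_coe.1 h)), dl_apply, if_neg]
      rintro rfl
      exact hy K.one_mem
  rw [h3] at h2
  exact h2.symm

lemma apply_dl_of_comm {x : E G →L[ℂ] E G} (h : ∀ g, r g * x = x * r g) (g k : G) :
    x (dl k) g = cf x (g * k⁻¹) := by
  have h1 : dl k = r k⁻¹ (dl (1 : G)) := by rw [r_dl]; simp
  rw [h1]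
  have h2 : r k⁻¹ (x (dl (1 : G))) = x (r k⁻¹ (dl (1 : G))) :=
    congrArg (fun t => t (dl (1 : G))) (h k⁻¹)
  rw [← h2, r_apply]
  rfl

lemma star_comm_r {x : E G →L[ℂ] E G} (h : ∀ g, r g * x = x * r g) (g : G) :
    r g * star x = star x * r g := by
  have h1 := congrArg star (h g⁻¹)
  rw [star_mul, star_mul, star_r, inv_inv] at h1
  exact h1.symm

/-- An operator which commutes with the right translations and whose coefficients vanish off `K`
belongs to `vn K`. -/
lemma mem_of_comm_r {K : Subgroup G} {x : E G →L[ℂ] E G} (h : ∀ g, r g * x = x * r g)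
    (h0 : ∀ g, g ∉ K → cf x g = 0) : x ∈ vn K := by
  have hstar : ∀ g, cf (star x) g = conj (cf x g⁻¹) := by
    intro g
    rw [cf_eq_inner, inner_star_right, ← inner_conj_symm, inner_dl, apply_dl_of_comm h, one_mul]
  rw [mem_vn_iff]
  intro t ht
  -- it suffices to compare matrix coefficients
  have key : ∀ a b : G, (t (x (dl a)) : E G) b = (x (t (dl a)) : E G) b := by
    intro a b
    have e1 : HasSum (fun k : G => cf x k • dl (k * a)) (x (dl a)) := by
      have h1 := hasSum_dl (x (dl a))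
      rw [← (Equiv.mulRight a).hasSum_iff] at h1
      convert h1 using 2 with k
      simp only [Function.comp_apply, Equiv.coe_mulRight]
      rw [apply_dl_of_comm h, mul_inv_cancel_right]
    have e2 := (e1.mapL t).mapL (innerSL ℂ (dl b))
    have e3 : (t (x (dl a)) : E G) b = ∑' k : G, cf x k * (t (dl a) : E G) (k⁻¹ * b) := by
      rw [← inner_dl, ← innerSL_apply_apply, ← e2.tsum_eq]
      refine tsum_congr fun k => ?_
      rw [map_smul, map_smul, smul_eq_mul, innerSL_apply_apply, inner_dl]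
      by_cases hk : k ∈ K
      · have h4 : t (dl (k * a)) = u k (t (dl a)) := by
          rw [← u_dl]
          exact (congrArg (fun s => s (dl a)) (ht k hk)).symm
        rw [h4, u_apply]
      · rw [h0 k hk, zero_mul, zero_mul]
    rw [e3, ← inner_dl b (x (t (dl a))), ← inner_star_left, E.inner_eq_tsum]
    rw [← ((Equiv.inv G).trans (Equiv.mulRight b)).tsum_eq
      (fun y => conj ((star x (dl b) : E G) y) * ((t (dl a) : E G) y))]
    refine tsum_congr fun k => ?_
    simp only [Equiv.trans_apply, Equiv.inv_apply, Equiv.coe_mulRight]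
    rw [apply_dl_of_comm (star_comm_r h), mul_inv_cancel_right, hstar, inv_inv]
    simp
  have key2 : ∀ a : G, t (x (dl a)) = x (t (dl a)) := fun a => by
    ext b
    exact key a b
  ext1 f
  have h2 := hasSum_dl f
  have h3 := (h2.mapL x).mapL t
  have h4 := (h2.mapL t).mapL x
  have h5 : (fun g => t (x (f g • dl g))) = fun g => x (t (f g • dl g)) := by
    funext g
    rw [map_smul, map_smul, map_smul, map_smul, key2]
  rw [h5] at h3
  exact h3.unique h4

lemma mem_of_cf {K : Subgroup G} {x : E G →L[ℂ] E G} (h : x ∈ LG G)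
    (h0 : ∀ g, g ∉ K → cf x g = 0) : x ∈ vn K := mem_of_comm_r (comm_r h) h0

lemma mem_LG_of_comm_r {x : E G →L[ℂ] E G} (h : ∀ g, r g * x = x * r g) : x ∈ LG G :=
  mem_of_comm_r h fun g hg => absurd (Subgroup.mem_top g) hg

lemma mem_vn_iff_cf {K : Subgroup G} {x : E G →L[ℂ] E G} :
    x ∈ vn K ↔ x ∈ LG G ∧ ∀ g, g ∉ K → cf x g = 0 :=
  ⟨fun h => ⟨mem_top_of_mem h, fun _ hg => cf_eq_zero_of_mem h hg⟩, fun h => mem_of_cf h.1 h.2⟩

lemma ext_dl {F : Type*} [NormedAddCommGroup F] [NormedSpace ℂ F] {S T : E G →L[ℂ] F}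
    (h : ∀ g, S (dl g) = T (dl g)) : S = T := by
  ext1 f
  have h1 := (hasSum_dl f).mapL S
  have h2 := (hasSum_dl f).mapL T
  have h3 : (fun g => S (f g • dl g)) = fun g => T (f g • dl g) := by
    funext g
    rw [map_smul, map_smul, h]
  rw [h3] at h1
  exact h1.unique h2

end Pool.Agent.Helper35.VN
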