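import Pool.Agent.Helper35.VN.Final

/-!
# The group von Neumann algebra as an algebra of functions

`L(G)` is identified with the set of functions `x : G → ℂ` such that the left convolution by `x` is
a bounded operator on `ℓ²(G)` (`x = X δ_1` for the operator `X`; the operators in the von Neumann
algebra generated by the left translations are exactly the bounded left convolutions).
-/

set_option autoImplicit false
set_option linter.unusedSectionVars false

open scoped ComplexConjugate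

noncomputable section

namespace Pool.Agent.Helper35.VN

variable {G : Type*} [Group G] {Γ Λ : Type*} [Group Γ] [Group Λ]

/-- Convolution. -/
def conv (x y : G → ℂ) (g : G) : ℂ := ∑' h, x h * y (h⁻¹ * g)

/-- The adjoint. -/
def adj (x : G → ℂ) (g : G) : ℂ := conj (x g⁻¹)

open Classical in
/-- The group element `g` as an element of `L(G)`. -/
def elt (g : G) (k : G) : ℂ := if k = g then 1 else 0

/-- The elements of `L(G)`: the functions `x` such that left convolution by `x` is a bounded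
operator on `ℓ²(G)`. -/
def InL (x : G → ℂ) : Prop :=
  ∃ C : ℝ, ∀ f : G → ℂ, (Summable fun g => ‖f g‖ ^ 2) →
    (Summable fun g => ‖conv x f g‖ ^ 2) ∧ ∑' g, ‖conv x f g‖ ^ 2 ≤ C * ∑' g, ‖f g‖ ^ 2

/-- `θ : L(Γ) → L(Λ)` is a trace-preserving `*`-isomorphism. -/
structure TraceIso (θ : (Γ → ℂ) → Λ → ℂ) : Prop where
  bij : Set.BijOn θ {x | InL x} {y | InL y}
  add : ∀ x y, InL x → InL y → θ (x + y) = θ x + θ y
  smul : ∀ (c : ℂ) (x), InL x → θ (c • x) = c • θ x
  conv : ∀ x y, InL x → InL y → θ (conv x y) = conv (θ x) (θ y)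
  adj : ∀ x, InL x → θ (adj x) = adj (θ x)
  trace : ∀ x, InL x → θ x 1 = x 1

/-- `w` is a unitary of `L(G)`. -/
def UnitaryL (w : G → ℂ) : Prop := InL w ∧ conv (adj w) w = elt 1 ∧ conv w (adj w) = elt 1

/-- `θ(L(N)) = w L(H) w*`, where `L(N)` consists of the elements of `L(Γ)` supported on `N`. -/
def ConjL (θ : (Γ → ℂ) → Λ → ℂ) (N : Subgroup Γ) (H : Subgroup Λ) (w : Λ → ℂ) : Prop :=
  ∀ x, InL x → ((∀ g, g ∉ N → x g = 0) ↔ ∀ c, c ∉ H → conv (conv (adj w) (θ x)) w c = 0)

/-- `θ` is standard: it is induced by an isomorphism of groups, a character and a unitary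
of `L(Λ)`. -/
def StandardL (θ : (Γ → ℂ) → Λ → ℂ) : Prop :=
  ∃ (φ : Γ ≃* Λ) (χ : Γ →* Circle) (w : Λ → ℂ), UnitaryL w ∧
    ∀ g : Γ, θ (elt g) = (χ g : ℂ) • conv (conv w (elt (φ g))) (adj w)

/-! ### Functions and operators -/

lemma conv_cf {X : E G →L[ℂ] E G} (h : X ∈ LG G) (f : E G) : conv (cf X) f = (X f : E G) := by
  funext g
  rw [← inner_dl g (X f), ← inner_star_left, E.inner_eq_tsum]
  unfold conv
  rw [← ((Equiv.inv G).trans (Equiv.mulRight g)).tsum_eq
    (fun y => conj ((star X (dl g) : E G) y) * f y)]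
  refine tsum_congr fun k => ?_
  simp only [Equiv.trans_apply, Equiv.inv_apply, Equiv.coe_mulRight]
  rw [apply_dl (top_star h), mul_inv_cancel_right, cf_star h, inv_inv]
  simp

lemma cf_mul {X Y : E G →L[ℂ] E G} (hX : X ∈ LG G) : cf (X * Y) = conv (cf X) (cf Y) :=
  (conv_cf hX (Y (dl 1))).symm

lemma cf_star' {X : E G →L[ℂ] E G} (hX : X ∈ LG G) : cf (star X) = adj (cf X) :=
  funext fun g => cf_star hX g

lemma cf_u' (g : G) : cf (u g) = elt g := by
  classical
  funext k
  rw [cf_u]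
  unfold elt
  congr

lemma cf_one' : cf (1 : E G →L[ℂ] E G) = elt 1 := by
  rw [← u_one, cf_u']

lemma inL_cf {X : E G →L[ℂ] E G} (h : X ∈ LG G) : InL (cf X) := by
  refine ⟨‖X‖ ^ 2, fun f hf => ?_⟩
  have h1 : conv (cf X) f = (X (E.mk f hf) : E G) := conv_cf h (E.mk f hf)
  rw [h1]
  refine ⟨E.summable_sq _, ?_⟩
  rw [← E.norm_sq_eq_tsum]
  have h2 : ∑' g, ‖f g‖ ^ 2 = ‖E.mk f hf‖ ^ 2 := by
    rw [E.norm_sq_eq_tsum]
    rfl
  rw [h2, ← mul_pow]
  exact pow_le_pow_left₀ (norm_nonneg _) (X.le_opNorm _) 2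

lemma conv_elt_one (x : G → ℂ) : conv x (elt 1) = x := by
  classical
  funext g
  unfold conv elt
  rw [tsum_eq_single g]
  · simp
  · intro h hh
    rw [if_neg, mul_zero]
    intro h1
    exact hh (inv_mul_eq_one.1 h1)

lemma summable_elt (g : G) : Summable fun k => ‖elt g k‖ ^ 2 := by
  classical
  refine summable_of_ne_finset_zero (s := {g}) fun k hk => ?_
  unfold elt
  rw [if_neg (by simpa using hk)]
  simp

/-- Every element of `L(G)` comes from an operator. -/
lemma InL.exists_op {x : G → ℂ} (hx : InL x) : ∃ X : E G →L[ℂ] E G, X ∈ LG G ∧ cf X = x := by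
  obtain ⟨C, hC⟩ := hx
  have hxs : Summable fun g => ‖x g‖ ^ 2 := by
    have h := (hC (elt 1) (summable_elt 1)).1
    rwa [conv_elt_one] at h
  have hsum : ∀ (f : E G) (g : G), Summable fun h => x h * f (h⁻¹ * g) := by
    intro f g
    have h1 : Summable fun h => ‖f (h⁻¹ * g)‖ ^ 2 :=
      (Equiv.summable_iff (f := fun y => ‖f y‖ ^ 2)
        ((Equiv.inv G).trans (Equiv.mulRight g))).2 (E.summable_sq f)
    refine Summable.of_norm_bounded (hxs.add h1) fun h => ?_
    rw [norm_mul]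
    nlinarith [sq_nonneg (‖x h‖ - ‖f (h⁻¹ * g)‖), norm_nonneg (x h), norm_nonneg (f (h⁻¹ * g)),
      sq_nonneg ‖x h‖, sq_nonneg ‖f (h⁻¹ * g)‖]
  let X : E G →L[ℂ] E G := LinearMap.mkContinuous
    { toFun := fun f => E.mk (conv x f) (hC f (E.summable_sq f)).1
      map_add' := fun f k => by
        ext g
        rw [E.add_apply, E.mk_apply, E.mk_apply, E.mk_apply]
        unfold conv
        rw [← (hsum f g).tsum_add (hsum k g)]
        refine tsum_congr fun h => ?_
        rw [E.add_apply, mul_add]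
      map_smul' := fun c f => by
        ext g
        rw [RingHom.id_apply, E.smul_apply, E.mk_apply, E.mk_apply]
        unfold conv
        rw [← tsum_mul_left]
        refine tsum_congr fun h => ?_
        rw [E.smul_apply]
        ring } (Real.sqrt |C|) (by
      intro f
      have h1 := (hC f (E.summable_sq f)).2
      rw [← E.norm_sq_eq_tsum] at h1
      have h2 : ‖E.mk (conv x f) (hC f (E.summable_sq f)).1‖ ^ 2 ≤
          (Real.sqrt |C| * ‖f‖) ^ 2 := by
        rw [E.norm_sq_eq_tsum, mul_pow, Real.sq_sqrt (abs_nonneg C)]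
        refine h1.trans ?_
        exact mul_le_mul_of_nonneg_right (le_abs_self C) (sq_nonneg _)
      exact le_of_sq_le_sq h2 (by positivity))
  have hXap : ∀ (f : E G) (g : G), (X f : E G) g = conv x f g := fun f g => rfl
  refine ⟨X, mem_LG_of_comm_r fun k => ?_, ?_⟩
  · ext f g
    change (r k (X f) : E G) g = (X (r k f) : E G) g
    rw [r_apply, hXap, hXap]
    unfold conv
    refine tsum_congr fun h => ?_
    rw [r_apply, mul_assoc]
  · funext g
    change (X (dl 1) : E G) g = x g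
    rw [hXap]
    have h1 : ((dl (1 : G) : E G) : G → ℂ) = elt 1 := by
      rw [← cf_one']
      rfl
    rw [h1, conv_elt_one]

/-- The operator with coefficients `x`. -/
def op (x : G → ℂ) (hx : InL x) : E G →L[ℂ] E G := hx.exists_op.choose

lemma op_mem (x : G → ℂ) (hx : InL x) : op x hx ∈ LG G := hx.exists_op.choose_spec.1

lemma cf_op (x : G → ℂ) (hx : InL x) : cf (op x hx) = x := hx.exists_op.choose_spec.2

/-- The isomorphism of von Neumann algebras given by an isomorphism of algebras of functions. -/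
lemma TraceIso.exists_iso {θ : (Γ → ℂ) → Λ → ℂ} (hθ : TraceIso θ) :
    ∃ Θ : Iso Γ Λ, ∀ x : (LG Γ).toStarSubalgebra,
      cf (Θ x : E Λ →L[ℂ] E Λ) = θ (cf (x : E Γ →L[ℂ] E Γ)) := by
  classical
  have hmem : ∀ x : (LG Γ).toStarSubalgebra, InL (θ (cf (x : E Γ →L[ℂ] E Γ))) :=
    fun x => hθ.bij.mapsTo (inL_cf x.2)
  let F : (LG Γ).toStarSubalgebra → (LG Λ).toStarSubalgebra :=
    fun x => ⟨op _ (hmem x), op_mem _ _⟩
  have hF : ∀ x, cf (F x : E Λ →L[ℂ] E Λ) = θ (cf (x : E Γ →L[ℂ] E Γ)) :=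
    fun x => cf_op _ (hmem x)
  have hext : ∀ {a b : (LG Λ).toStarSubalgebra},
      cf (a : E Λ →L[ℂ] E Λ) = cf (b : E Λ →L[ℂ] E Λ) → a = b := by
    intro a b h
    exact Subtype.ext (ext_cf a.2 b.2 fun g => congrFun h g)
  have hinj : Function.Injective F := by
    intro x y hxy
    have h1 : θ (cf (x : E Γ →L[ℂ] E Γ)) = θ (cf (y : E Γ →L[ℂ] E Γ)) := by
      rw [← hF, ← hF, hxy]
    have h2 := hθ.bij.injOn (inL_cf x.2) (inL_cf y.2) h1
    exact Subtype.ext (ext_cf x.2 y.2 fun g => congrFun h2 g)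
  have hsurj : Function.Surjective F := by
    intro y
    obtain ⟨x, hx, hxy⟩ := hθ.bij.surjOn (inL_cf y.2)
    have hx' : InL x := hx
    refine ⟨⟨op x hx', op_mem _ _⟩, hext ?_⟩
    rw [hF]
    change θ (cf (op x hx')) = _
    rw [cf_op, hxy]
  refine ⟨{ Equiv.ofBijective F ⟨hinj, hsurj⟩ with
      map_mul' := ?_
      map_add' := ?_
      map_star' := ?_
      map_smul' := ?_ }, hF⟩
  · intro x y
    refine hext ?_
    change cf (F (x * y) : E Λ →L[ℂ] E Λ) =
      cf ((F x : E Λ →L[ℂ] E Λ) * (F y : E Λ →L[ℂ] E Λ))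
    rw [hF, cf_mul (F x).2, hF, hF, ← hθ.conv _ _ (inL_cf x.2) (inL_cf y.2), ← cf_mul x.2]
    rfl
  · intro x y
    refine hext ?_
    change cf (F (x + y) : E Λ →L[ℂ] E Λ) =
      cf (F x : E Λ →L[ℂ] E Λ) + cf (F y : E Λ →L[ℂ] E Λ)
    rw [hF, hF, hF, ← hθ.add _ _ (inL_cf x.2) (inL_cf y.2)]
    rfl
  · intro x
    refine hext ?_
    change cf (F (star x) : E Λ →L[ℂ] E Λ) = cf (star (F x : E Λ →L[ℂ] E Λ))
    rw [hF, cf_star' (F x).2, hF, ← hθ.adj _ (inL_cf x.2), ← cf_star' x.2]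
    rfl
  · intro c x
    refine hext ?_
    change cf (F (c • x) : E Λ →L[ℂ] E Λ) = c • cf (F x : E Λ →L[ℂ] E Λ)
    rw [hF, hF, ← hθ.smul _ _ (inL_cf x.2)]
    rfl

end Pool.Agent.Helper35.VN
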