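import Pool.Agent.Helper35.VN.Limit

/-!
# Standard isomorphisms
-/

set_option autoImplicit false
set_option linter.unusedSectionVars false

open scoped ComplexConjugate

noncomputable section

namespace Pool.Agent.Helper35.VN

variable {G : Type*} [Group G] {Γ Λ : Type*} [Group Γ] [Group Λ]

/-- The isomorphism `θ` is standard: it is induced by an isomorphism of groups, a character and a
unitary of `L(Λ)`. -/
def Standard (θ : Iso Γ Λ) : Prop :=
  ∃ (φ : Γ ≃* Λ) (χ : Γ →* Circle) (w : E Λ →L[ℂ] E Λ), IsU w ∧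
    ∀ g : Γ, (θ (U g) : E Λ →L[ℂ] E Λ) = (χ g : ℂ) • (w * u (φ g) * star w)

/-- The vector of `Seq.exists_vector` comes from a unitary. -/
theorem exists_unitary {θ : Iso Γ Λ} (hθ : TracePreserving θ) {N : ℕ → Subgroup Γ}
    (hN : ∀ n, (N n).Normal) (hbot : ∀ g, (∀ n, g ∈ N n) → g = 1) (hicc : ∀ n, RelIcc (N n))
    {H : ℕ → Subgroup Λ} {v : ℕ → (E Λ →L[ℂ] E Λ)} (h : Seq H v)
    (hl : ∀ n, Level θ (N n) (H n) (v n)) {ξ : E Λ} (hξ1 : ‖ξ‖ = 1)
    (hξ : ∀ n, ind (H n : Set Λ) (star (v n) ξ) = star (v n) ξ) :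
    ∃ w : E Λ →L[ℂ] E Λ, IsU w ∧ ∀ n, star (v n) * w ∈ vn (H n) := by
  classical
  -- the translates under `θ(Γ)` are orthogonal
  have h1 : ∀ g : Γ, g ≠ 1 → inner ℂ ξ ((θ (U g) : E Λ →L[ℂ] E Λ) ξ) = 0 := by
    intro g hg
    obtain ⟨n, hn⟩ : ∃ n, g ∉ N n := by
      by_contra hcon
      push Not at hcon
      exact hg (hbot g hcon)
    have := hN n
    have := h.normal n
    obtain ⟨c, hc⟩ := (hl n).exists_good (h.isU n) (hicc n) g
    have hcH : c ∉ H n := by
      intro hcH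
      apply hn
      rw [← good_one_iff (hl n) g, hc.iff (h.isU n), mul_one]
      exact (H n).inv_mem hcH
    set η := star (v n) ξ with hη
    have hvη : v n η = ξ := congrArg (fun t => t ξ) (h.isU n).2.2
    have hη' : ind (H n : Set Λ) η = η := hξ n
    set a := star (v n) * (θ (U g) : E Λ →L[ℂ] E Λ) * v n * u c⁻¹ with ha
    have ha' : a ∈ vn (H n) := hc
    have h2 : inner ℂ ξ ((θ (U g) : E Λ →L[ℂ] E Λ) ξ) = inner ℂ (star a η) (u c η) := by
      rw [inner_star_left]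
      have h3 : a (u c η) = star (v n) ((θ (U g) : E Λ →L[ℂ] E Λ) ξ) := by
        have h4 : u c⁻¹ (u c η) = η := by
          change (u c⁻¹ * u c) η = η
          rw [← u_mul, inv_mul_cancel, u_one]
          rfl
        change star (v n) ((θ (U g) : E Λ →L[ℂ] E Λ) (v n (u c⁻¹ (u c η)))) = _
        rw [h4, hvη]
      rw [h3, inner_star_right, hvη]
    rw [h2, E.inner_eq_tsum]
    refine (tsum_congr fun x => ?_).trans tsum_zero
    by_cases hx : x ∈ H n
    · have h5 : (u c η : E Λ) x = 0 := by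
        rw [u_apply, ← hη', ind_apply_of_notMem]
        intro h6
        apply hcH
        have h7 := (H n).mul_mem hx ((H n).inv_mem (SetLike.mem_coe.1 h6))
        have h8 : x * (c⁻¹ * x)⁻¹ = c := by group
        rwa [h8] at h7
      rw [h5, mul_zero]
    · have h5 : (star a η : E Λ) x = 0 := by
        have h6 := ind_comm_of_mem (top_star ha') η
        rw [hη'] at h6
        rw [← h6, ind_apply_of_notMem (fun h => hx (SetLike.mem_coe.1 h))]
      rw [h5, map_zero, zero_mul]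
  -- pass to `ℓ²(Γ)`
  obtain ⟨V, hV1, hV2⟩ := hθ.spatial
  set ζ := V.symm ξ with hζ
  have hVζ : V ζ = ξ := V.apply_symm_apply ξ
  have hζ1 : ‖ζ‖ = 1 := by rw [hζ, V.symm.norm_map, hξ1]
  have hζ2 : ∀ g : Γ, g ≠ 1 → inner ℂ ζ (u g ζ) = 0 := by
    intro g hg
    rw [← V.inner_map_map, hVζ]
    have h3 := hV2 (U g) ζ
    rw [coe_U, hVζ] at h3
    rw [h3, h1 g hg]
  obtain ⟨R, hR1, hR2, hR3, hR4⟩ := exists_right_unitary hζ1 hζ2
  have hRR : ∀ f k, inner ℂ (R f) (R k) = inner ℂ f k := by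
    intro f k
    rw [← inner_star_left]
    congr 1
    exact congrArg (fun t => t f) hR3
  have h2 : ∀ c : Λ, c ≠ 1 → inner ℂ ξ (u c ξ) = 0 := by
    intro c hc
    obtain ⟨x, hx⟩ := exists_pre θ (u_mem_top c)
    have h3 : inner ℂ ξ (u c ξ) = inner ℂ ζ ((x : E Γ →L[ℂ] E Γ) ζ) := by
      rw [← V.inner_map_map, hVζ, hV2, hVζ, hx]
    have h4 : (x : E Γ →L[ℂ] E Γ) * R = R * (x : E Γ →L[ℂ] E Γ) := by
      have h5 := mem_vn_iff.1 x.2 R (fun k _ => (hR2 k).symm)
      exact h5.symm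
    have h5 : (x : E Γ →L[ℂ] E Γ) ζ = R ((x : E Γ →L[ℂ] E Γ) (dl 1)) := by
      rw [← hR1]
      exact congrArg (fun t => t (dl (1 : Γ))) h4
    have h6 := hθ x
    rw [hx, cf_u, if_neg (Ne.symm hc)] at h6
    rw [h3, h5, ← hR1, hRR, inner_dl]
    exact h6.symm
  obtain ⟨w, hw1, hw2, hw3, hw4⟩ := exists_left_unitary hξ1 fun c hc =>
    right_orthogonal hξ1 h2 hc
  refine ⟨w, ⟨hw1, hw3, hw4⟩, fun n => ?_⟩
  refine mem_of_cf (mul_mem (star_mem (h.isU n).1) hw1) fun c hc => ?_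
  change (star (v n) (w (dl 1)) : E Λ) c = 0
  rw [hw2, ← hξ n, ind_apply_of_notMem (fun h => hc (SetLike.mem_coe.1 h))]

/-- If `θ(L(N n)) = w L(H n) w*` with a fixed unitary `w`, then `θ` is standard. -/
theorem standard_of_fixed {θ : Iso Γ Λ} (hθ : TracePreserving θ) {N : ℕ → Subgroup Γ}
    (hN : ∀ n, (N n).Normal) (hbot : ∀ g, (∀ n, g ∈ N n) → g = 1) (hicc : ∀ n, RelIcc (N n))
    {H : ℕ → Subgroup Λ} {w : E Λ →L[ℂ] E Λ} (hw : IsU w)
    (hl : ∀ n, Level θ (N n) (H n) w) : Standard θ := by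
  classical
  -- the intersection of the `H n` is trivial
  have hHbot : ∀ c, (∀ n, c ∈ H n) → c = 1 := by
    intro c hc
    obtain ⟨x, hx⟩ := exists_pre θ
      (mul_mem (mul_mem hw.1 (u_mem_top c)) (star_mem hw.1) : w * u c * star w ∈ LG Λ)
    have h0 : star w * (θ x : E Λ →L[ℂ] E Λ) * w = u c := by
      rw [hx]
      have : star w * (w * u c * star w) * w = (star w * w) * u c * (star w * w) := by
        simp only [mul_assoc]
      rw [this, hw.2.1, one_mul, mul_one]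
    have h1 : ∀ n, (x : E Γ →L[ℂ] E Γ) ∈ vn (N n) := by
      intro n
      rw [hl n x, h0]
      exact u_mem _ (hc n)
    have h2 : (x : E Γ →L[ℂ] E Γ) = (cf (x : E Γ →L[ℂ] E Γ) 1) • (1 : E Γ →L[ℂ] E Γ) := by
      refine ext_cf x.2 (smul_mem' _ (one_mem _)) fun g => ?_
      rw [cf_smul, cf_one]
      by_cases hg : g = 1
      · rw [hg, if_pos rfl, mul_one]
      · rw [if_neg hg, mul_zero]
        obtain ⟨n, hn⟩ : ∃ n, g ∉ N n := by
          by_contra hcon
          push Not at hcon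
          exact hg (hbot g hcon)
        exact cf_eq_zero_of_mem (h1 n) hn
    set s := cf (x : E Γ →L[ℂ] E Γ) 1 with hs
    have h3 : (θ x : E Λ →L[ℂ] E Λ) = s • (1 : E Λ →L[ℂ] E Λ) := by
      have h4 : x = s • (1 : (LG Γ).toStarSubalgebra) := Subtype.ext h2
      rw [h4, map_smul, map_one]
      rfl
    by_contra hne
    rw [h3, mul_smul_comm, mul_one, smul_mul_assoc, hw.2.1] at h0
    have h4 := congrArg (fun t => cf t c) h0
    rw [cf_smul, cf_one, cf_u, if_neg hne, if_pos rfl, mul_zero] at h4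
    exact zero_ne_one h4
  have key : ∀ g : Γ, ∃ (c : Λ) (a : ℂ),
      star w * (θ (U g) : E Λ →L[ℂ] E Λ) * w = a • u c ∧ ‖a‖ = 1 := by
    intro g
    have hWU := isU_W θ hw g
    obtain ⟨c, hc⟩ := hWU.exists_cf_ne
    set W := star w * (θ (U g) : E Λ →L[ℂ] E Λ) * w with hW
    have hgood : ∀ n, W * u c⁻¹ ∈ vn (H n) := by
      intro n
      have := hN n
      exact (hl n).good_of_cf hw (hicc n) hc
    have h2 : W * u c⁻¹ = (cf (W * u c⁻¹) 1) • (1 : E Λ →L[ℂ] E Λ) := by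
      refine ext_cf (mul_mem hWU.1 (u_mem_top _)) (smul_mem' _ (one_mem _)) fun k => ?_
      rw [cf_smul, cf_one]
      by_cases hk : k = 1
      · rw [hk, if_pos rfl, mul_one]
      · rw [if_neg hk, mul_zero]
        obtain ⟨n, hn⟩ : ∃ n, k ∉ H n := by
          by_contra hcon
          push Not at hcon
          exact hk (hHbot k hcon)
        exact cf_eq_zero_of_mem (hgood n) hn
    set a := cf (W * u c⁻¹) 1 with ha
    have h3 : W = a • u c := by
      have h4 : W = W * u c⁻¹ * u c := by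
        rw [mul_assoc, ← u_mul, inv_mul_cancel, u_one, mul_one]
      rw [h4, h2, smul_mul_assoc, one_mul]
    refine ⟨c, a, h3, ?_⟩
    have h5 := mass_one hWU.2.1
    rw [h3] at h5
    have h6 : (a • u c) (dl (1 : Λ)) = a • dl c := by
      change a • u c (dl (1 : Λ)) = _
      rw [u_dl, mul_one]
    rw [h6, norm_smul, norm_dl, mul_one] at h5
    exact (pow_eq_one_iff_of_nonneg (norm_nonneg a) two_ne_zero).1 h5
  choose f a hfa ha1 using key
  have huniq : ∀ {c d : Λ} {s t : ℂ}, s ≠ 0 → s • u c = t • u d → c = d ∧ s = t := by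
    intro c d s t hs hst
    have h1 := congrArg (fun t => cf t c) hst
    rw [cf_smul, cf_smul, cf_u, cf_u, if_pos rfl, mul_one] at h1
    by_cases hcd : c = d
    · rw [if_pos hcd, mul_one] at h1
      exact ⟨hcd, h1⟩
    · rw [if_neg hcd, mul_zero] at h1
      exact absurd h1 hs
  have hane : ∀ g, a g ≠ 0 := fun g h0 => by
    have := ha1 g
    rw [h0, norm_zero] at this
    exact zero_ne_one this
  have hmul : ∀ g k, f (g * k) = f g * f k ∧ a (g * k) = a g * a k := by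
    intro g k
    have h1 := W_mul (θ := θ) hw g k
    rw [hfa, hfa, hfa, smul_mul_smul_comm, ← u_mul] at h1
    exact huniq (hane _) h1
  have hone : f 1 = 1 ∧ a 1 = 1 := by
    have h1 := hmul 1 1
    rw [mul_one] at h1
    refine ⟨?_, ?_⟩
    · exact (left_eq_mul.1 h1.1)
    · exact (mul_eq_left₀ (hane 1)).1 h1.2.symm
  let χ : Γ →* Circle :=
    { toFun := fun g => ⟨a g, mem_sphere_zero_iff_norm.2 (ha1 g)⟩
      map_one' := Subtype.ext hone.2
      map_mul' := fun g k => Subtype.ext (hmul g k).2 }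
  let φ : Γ →* Λ := MonoidHom.mk' f fun g k => (hmul g k).1
  have hinj : Function.Injective φ := by
    rw [injective_iff_map_eq_one]
    intro g hg
    have hg' : f g = 1 := hg
    have h1 := hfa g
    rw [hg', u_one] at h1
    have h2 : (θ (U g) : E Λ →L[ℂ] E Λ) = a g • (1 : E Λ →L[ℂ] E Λ) := by
      have h3 : (θ (U g) : E Λ →L[ℂ] E Λ) =
          w * (star w * (θ (U g) : E Λ →L[ℂ] E Λ) * w) * star w := by
        have : w * (star w * (θ (U g) : E Λ →L[ℂ] E Λ) * w) * star w =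
            (w * star w) * (θ (U g) : E Λ →L[ℂ] E Λ) * (w * star w) := by
          simp only [mul_assoc]
        rw [this, hw.2.2, one_mul, mul_one]
      rw [h3, h1, mul_smul_comm, mul_one, smul_mul_assoc, hw.2.2]
    have h3 : θ (U g) = θ (a g • (1 : (LG Γ).toStarSubalgebra)) := by
      rw [map_smul, map_one]
      exact Subtype.ext h2
    have h4 := congrArg Subtype.val (θ.injective h3)
    have h5 : u g = a g • (1 : E Γ →L[ℂ] E Γ) := h4
    have h6 := congrArg (fun t => cf t g) h5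
    rw [cf_u, if_pos rfl, cf_smul, cf_one] at h6
    by_contra hne
    rw [if_neg hne, mul_zero] at h6
    exact one_ne_zero h6
  have hsurj : Function.Surjective φ := by
    intro c
    obtain ⟨g, hg⟩ := exists_cf_W_ne hθ hw c
    refine ⟨g, ?_⟩
    change f g = c
    rw [hfa, cf_smul, cf_u] at hg
    by_contra hne
    rw [if_neg (fun h => hne h.symm), mul_zero] at hg
    exact hg rfl
  refine ⟨MulEquiv.ofBijective φ ⟨hinj, hsurj⟩, χ, w, hw, fun g => ?_⟩
  change (θ (U g) : E Λ →L[ℂ] E Λ) = a g • (w * u (f g) * star w)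
  have h3 : (θ (U g) : E Λ →L[ℂ] E Λ) =
      w * (star w * (θ (U g) : E Λ →L[ℂ] E Λ) * w) * star w := by
    have : w * (star w * (θ (U g) : E Λ →L[ℂ] E Λ) * w) * star w =
        (w * star w) * (θ (U g) : E Λ →L[ℂ] E Λ) * (w * star w) := by
      simp only [mul_assoc]
    rw [this, hw.2.2, one_mul, mul_one]
  rw [h3, hfa, mul_smul_comm, smul_mul_assoc]

/-- A standard isomorphism maps `L(N)` onto `w L(φ(N)) w*`. -/
lemma level_of_standard {θ : Iso Γ Λ} (hθ : TracePreserving θ) (N : Subgroup Γ) {φ : Γ ≃* Λ}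
    {χ : Γ →* Circle} {w : E Λ →L[ℂ] E Λ} (hw : IsU w)
    (h : ∀ g : Γ, (θ (U g) : E Λ →L[ℂ] E Λ) = (χ g : ℂ) • (w * u (φ g) * star w)) :
    Level θ N (N.map φ.toMonoidHom) w := by
  have key : ∀ (x : (LG Γ).toStarSubalgebra) (g : Γ),
      cf (x : E Γ →L[ℂ] E Γ) g =
        conj (χ g : ℂ) * cf (star w * (θ x : E Λ →L[ℂ] E Λ) * w) (φ g) := by
    intro x g
    have h1 := hθ.inner_eq (U g) x
    rw [coe_U, u_dl, mul_one, inner_dl] at h1
    have h2 : cf (x : E Γ →L[ℂ] E Γ) g = (x : E Γ →L[ℂ] E Γ) (dl 1) g := rfl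
    rw [h2, ← h1, inner_apply_dl, h g, star_smul, smul_mul_assoc, cf_smul]
    congr 1
    have hx : (θ x : E Λ →L[ℂ] E Λ) ∈ LG Λ := (θ x).2
    have h3 : star (w * u (φ g) * star w) * (θ x : E Λ →L[ℂ] E Λ) =
        w * (u (φ g)⁻¹ * (star w * (θ x : E Λ →L[ℂ] E Λ))) := by
      rw [star_mul, star_mul, star_star, star_u]
      simp only [mul_assoc]
    rw [h3, cf_mul_comm hw.1 (mul_mem (u_mem_top _) (mul_mem (star_mem hw.1) hx)), mul_assoc,
      cf_u_mul, inv_inv, mul_one]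
  intro x
  have hm : star w * (θ x : E Λ →L[ℂ] E Λ) * w ∈ LG Λ :=
    mul_mem (mul_mem (star_mem hw.1) (θ x).2) hw.1
  constructor
  · intro hx
    refine mem_of_cf hm fun c hc => ?_
    obtain ⟨g, rfl⟩ := φ.surjective c
    have hg : g ∉ N := fun hg => hc ⟨g, hg, rfl⟩
    have h1 := key x g
    rw [cf_eq_zero_of_mem hx hg] at h1
    have h2 : conj (χ g : ℂ) ≠ 0 := by simp
    exact (mul_eq_zero.1 h1.symm).resolve_left h2
  · intro hx
    refine mem_of_cf x.2 fun g hg => ?_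
    rw [key x g, cf_eq_zero_of_mem hx, mul_zero]
    rintro ⟨k, hk, hkg⟩
    exact hg ((φ.injective hkg) ▸ hk)

/-- In the standard case the conjugating unitaries do not spread out. -/
lemma heavy_of_standard {θ : Iso Γ Λ} (hθ : TracePreserving θ) {N : Subgroup Γ} [hNn : N.Normal]
    (hN : RelIcc N) {H : Subgroup Λ} [hHn : H.Normal] {v : E Λ →L[ℂ] E Λ} (hv : IsU v)
    (hl : Level θ N H v) {φ : Γ ≃* Λ} {χ : Γ →* Circle} {w : E Λ →L[ℂ] E Λ} (hw : IsU w)
    (h : ∀ g : Γ, (θ (U g) : E Λ →L[ℂ] E Λ) = (χ g : ℂ) • (w * u (φ g) * star w)) (x : Λ) :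
    ∃ c, ‖cf w x‖ ^ 2 ≤ mass v {g | c⁻¹ * g ∈ H} := by
  have hl' := level_of_standard hθ N hw h
  have hKn : (N.map φ.toMonoidHom).Normal := hNn.map _ φ.surjective
  obtain ⟨⟨c, hc⟩, hHK⟩ := step (le_refl N) hN hl' hl hw hv
  obtain ⟨_, hKH⟩ := step (le_refl N) hN hl hl' hv hw
  have hKH' : N.map φ.toMonoidHom = H := le_antisymm hKH hHK
  rw [hKH'] at hc
  refine ⟨x * c⁻¹, ?_⟩
  have h1 : v * u c = w * (star w * (v * u c)) := by
    rw [← mul_assoc w, hw.2.2, one_mul]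
  have h2 : mass (v * u c) {g | x⁻¹ * g ∈ H} = mass w {g | x⁻¹ * g ∈ H} := by
    rw [h1]
    refine mass_mul_right hw.1 hc (hw.adj.mul (hv.mul (isU_u c))).2.2 _ ?_
    intro k hk g
    change x⁻¹ * g ∈ H ↔ x⁻¹ * (g * k) ∈ H
    rw [← mul_assoc]
    exact (Subgroup.mul_mem_cancel_right H hk).symm
  have h3 : mass (v * u c) {g | x⁻¹ * g ∈ H} = mass v {g | (x * c⁻¹)⁻¹ * g ∈ H} := by
    rw [mass_mul_u hv.1]
    congr 1
    ext g
    change x⁻¹ * (g * c) ∈ H ↔ (x * c⁻¹)⁻¹ * g ∈ H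
    constructor
    · intro h4
      have h5 := hHn.conj_mem _ h4 c
      have h6 : c * (x⁻¹ * (g * c)) * c⁻¹ = (x * c⁻¹)⁻¹ * g := by group
      rwa [h6] at h5
    · intro h4
      have h5 := hHn.conj_mem _ h4 c⁻¹
      have h6 : c⁻¹ * ((x * c⁻¹)⁻¹ * g) * c⁻¹⁻¹ = x⁻¹ * (g * c) := by group
      rwa [h6] at h5
  rw [← h3, h2]
  refine le_mass w ?_
  change x⁻¹ * x ∈ H
  rw [inv_mul_cancel]
  exact H.one_mem

end Pool.Agent.Helper35.VN
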