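import Pool.Agent.Helper35.VN.Spatial

/-!
# Finiteness of group von Neumann algebras, masses
-/

set_option autoImplicit false
set_option linter.unusedSectionVars false

open scoped ComplexConjugate

noncomputable section

namespace Pool.Agent.Helper35.VN

variable {G : Type*} [Group G]

lemma inner_u (g : G) (f k : E G) : inner ℂ (u g f) (u g k) = inner ℂ f k :=
  (perm (Equiv.mulLeft g)).inner_map_map f k

lemma inner_r (g : G) (f k : E G) : inner ℂ (r g f) (r g k) = inner ℂ f k :=
  (perm (Equiv.mulRight g⁻¹)).inner_map_map f k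

/-- Isometries in `L(G)` are unitary. -/
lemma mul_star_of_star_mul {x : E G →L[ℂ] E G} (hx : x ∈ LG G) (h : star x * x = 1) :
    x * star x = 1 := by
  classical
  refine ext_cf (mul_mem hx (star_mem hx)) (one_mem _) ?_
  have e1 : ∀ f, star x (x f) = f := fun f => congrArg (fun t => t f) h
  set e := fun f : E G => x (star x f) with he
  have ee : ∀ f, e (e f) = e f := by
    intro f
    simp only [he]
    rw [e1]
  have hes : ∀ f k, inner ℂ (e f) k = inner ℂ f (e k) := by
    intro f k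
    simp only [he]
    rw [← inner_star_right]
    exact inner_star_left _ _ _
  have h1 : inner ℂ (dl (1 : G)) (e (dl 1)) = 1 := by
    have h2 := cf_mul_comm hx (top_star hx)
    rw [h, cf_one, if_pos rfl] at h2
    rw [inner_dl]
    exact h2
  have h3 : inner ℂ (dl (1 : G) - e (dl 1)) (dl (1 : G) - e (dl 1)) = 0 := by
    have h4 : inner ℂ (dl (1 : G)) (dl 1) = (1 : ℂ) := by
      rw [inner_dl, dl_apply, if_pos rfl]
    rw [inner_sub_left, inner_sub_right, inner_sub_right, hes, hes, ee, h1, h4]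
    ring
  have h5 : e (dl 1) = dl 1 := (sub_eq_zero.1 (inner_self_eq_zero.1 h3)).symm
  intro g
  change (e (dl 1) : E G) g = (dl (1 : G) : E G) g
  rw [h5]

/-- A unit vector `ζ` whose left translates are orthogonal is `R δ_1` for a unitary `R` which
commutes with the left translations. -/
lemma exists_right_unitary {ζ : E G} (h1 : ‖ζ‖ = 1) (h2 : ∀ g : G, g ≠ 1 → inner ℂ ζ (u g ζ) = 0) :
    ∃ R : E G →L[ℂ] E G, R (dl 1) = ζ ∧ (∀ g, R * u g = u g * R) ∧ star R * R = 1 ∧
      R * star R = 1 := by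
  classical
  have hon : Orthonormal ℂ (fun g : G => u g ζ) := by
    rw [orthonormal_iff_ite]
    intro g k
    have h3 : inner ℂ (u g ζ) (u k ζ) = inner ℂ ζ (u (g⁻¹ * k) ζ) := by
      rw [← inner_u g⁻¹, u_mul]
      change inner ℂ ((u g⁻¹ * u g) ζ) _ = _
      rw [← u_mul, inv_mul_cancel, u_one]
      rfl
    rw [h3]
    by_cases hgk : g = k
    · subst hgk
      rw [inv_mul_cancel, u_one, if_pos rfl]
      change inner ℂ ζ ζ = 1
      rw [inner_self_eq_norm_sq_to_K, h1]
      simp
    · rw [if_neg hgk, h2]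
      intro h4
      exact hgk (inv_mul_eq_one.1 h4)
  obtain ⟨V, hV⟩ := exists_isometry_of_orthonormal hon
  set R := V.toContinuousLinearMap with hR
  have hRdl : ∀ g, R (dl g) = u g ζ := hV
  have hRR : star R * R = 1 := by
    refine ext_dl fun g => ?_
    ext k
    change (star R (R (dl g)) : E G) k = (dl g : E G) k
    rw [← inner_dl, inner_star_right, ← inner_dl k (dl g)]
    exact V.inner_map_map _ _
  refine ⟨R, by rw [hRdl, u_one]; rfl, ?_, hRR, ?_⟩
  · intro g
    refine ext_dl fun k => ?_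
    change R (u g (dl k)) = u g (R (dl k))
    rw [u_dl, hRdl, hRdl, u_mul]
    rfl
  · refine ext_dl fun a => ?_
    have e1 : ∀ f, star R (R f) = f := fun f => congrArg (fun t => t f) hRR
    have h3 : ∀ g, (star R (dl a) : E G) g = conj (ζ (g⁻¹ * a)) := by
      intro g
      rw [← inner_dl, inner_star_right, hRdl, ← inner_conj_symm, inner_dl, u_apply]
    have h4 : ‖star R (dl a)‖ ^ 2 = 1 := by
      rw [E.norm_sq_eq_tsum]
      have h5 : ∑' g, ‖(star R (dl a) : E G) g‖ ^ 2 = ∑' g, ‖ζ g‖ ^ 2 := by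
        rw [← ((Equiv.inv G).trans (Equiv.mulRight a)).tsum_eq (fun g => ‖ζ g‖ ^ 2)]
        refine tsum_congr fun g => ?_
        rw [h3]
        simp
      rw [h5, ← E.norm_sq_eq_tsum, h1, one_pow]
    change R (star R (dl a)) = dl a
    have h6 : inner ℂ (dl a - R (star R (dl a))) (dl a - R (star R (dl a))) = 0 := by
      have h7 : inner ℂ (dl a) (R (star R (dl a))) = (1 : ℂ) := by
        rw [← inner_star_left, inner_self', h4, Complex.ofReal_one]
      have h8 : inner ℂ (R (star R (dl a))) (dl a) = (1 : ℂ) := by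
        rw [← inner_conj_symm, h7, map_one]
      have h9 : inner ℂ (R (star R (dl a))) (R (star R (dl a))) = (1 : ℂ) := by
        rw [← inner_star_left R (R (star R (dl a))) (star R (dl a)), e1, inner_self', h4,
          Complex.ofReal_one]
      have h10 : inner ℂ (dl a) (dl a) = (1 : ℂ) := by
        rw [inner_dl, dl_apply, if_pos rfl]
      rw [inner_sub_left, inner_sub_right, inner_sub_right, h7, h8, h9, h10]
      ring
    exact (sub_eq_zero.1 (inner_self_eq_zero.1 h6)).symm

/-- Left translates orthogonal implies right translates orthogonal. -/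
lemma right_orthogonal {ζ : E G} (h1 : ‖ζ‖ = 1) (h2 : ∀ g : G, g ≠ 1 → inner ℂ ζ (u g ζ) = 0)
    {g : G} (hg : g ≠ 1) : inner ℂ ζ (r g ζ) = 0 := by
  classical
  obtain ⟨R, hR1, hR2, hR3, hR4⟩ := exists_right_unitary h1 h2
  have hRdl : ∀ k, R (dl k) = u k ζ := by
    intro k
    have h3 : dl k = u k (dl (1 : G)) := by rw [u_dl, mul_one]
    rw [h3, ← hR1]
    exact congrArg (fun t => t (dl (1 : G))) (hR2 k)
  have h3 : ∀ a k : G, (star R (dl a) : E G) k = conj (ζ (k⁻¹ * a)) := by
    intro a k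
    rw [← inner_dl, inner_star_right, hRdl, ← inner_conj_symm, inner_dl, u_apply]
  have h4 : inner ℂ (star R (dl g)) (star R (dl (1 : G))) = 0 := by
    rw [inner_star_left]
    have h5 : R (star R (dl (1 : G))) = dl 1 := congrArg (fun t => t (dl (1 : G))) hR4
    rw [h5, inner_dl, dl_apply, if_neg hg]
  rw [E.inner_eq_tsum] at h4
  rw [E.inner_eq_tsum, ← h4, ← (Equiv.inv G).tsum_eq]
  refine tsum_congr fun k => ?_
  rw [h3, h3, r_apply]
  simp [mul_comm]

/-- A unit vector whose right translates are orthogonal is `w δ_1` for a unitary `w ∈ L(G)`. -/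
lemma exists_left_unitary {ζ : E G} (h1 : ‖ζ‖ = 1) (h2 : ∀ g : G, g ≠ 1 → inner ℂ ζ (r g ζ) = 0) :
    ∃ w : E G →L[ℂ] E G, w ∈ LG G ∧ w (dl 1) = ζ ∧ star w * w = 1 ∧ w * star w = 1 := by
  classical
  have hon : Orthonormal ℂ (fun g : G => r g⁻¹ ζ) := by
    rw [orthonormal_iff_ite]
    intro g k
    have h3 : inner ℂ (r g⁻¹ ζ) (r k⁻¹ ζ) = inner ℂ ζ (r (g * k⁻¹) ζ) := by
      rw [← inner_r g, r_mul]
      change inner ℂ ((r g * r g⁻¹) ζ) _ = _
      rw [← r_mul, mul_inv_cancel, r_one]
      rfl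
    rw [h3]
    by_cases hgk : g = k
    · subst hgk
      rw [mul_inv_cancel, r_one, if_pos rfl]
      change inner ℂ ζ ζ = 1
      rw [inner_self_eq_norm_sq_to_K, h1]
      simp
    · rw [if_neg hgk, h2]
      intro h4
      exact hgk (mul_inv_eq_one.1 h4)
  obtain ⟨V, hV⟩ := exists_isometry_of_orthonormal hon
  set w := V.toContinuousLinearMap with hw
  have hwdl : ∀ g, w (dl g) = r g⁻¹ ζ := hV
  have hww : star w * w = 1 := by
    refine ext_dl fun g => ?_
    ext k
    change (star w (w (dl g)) : E G) k = (dl g : E G) k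
    rw [← inner_dl, inner_star_right, ← inner_dl k (dl g)]
    exact V.inner_map_map _ _
  have hmem : w ∈ LG G := by
    refine mem_LG_of_comm_r fun g => ?_
    refine ext_dl fun k => ?_
    change r g (w (dl k)) = w (r g (dl k))
    rw [r_dl, hwdl, hwdl, mul_inv_rev, inv_inv, r_mul]
    rfl
  exact ⟨w, hmem, by rw [hwdl, inv_one, r_one]; rfl, hww, mul_star_of_star_mul hmem hww⟩

/-- The mass of the coefficients of `x` on the set `A`. -/
def mass (x : E G →L[ℂ] E G) (A : Set G) : ℝ := ‖ind A (x (dl 1))‖ ^ 2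

lemma mass_nonneg (x : E G →L[ℂ] E G) (A : Set G) : 0 ≤ mass x A := sq_nonneg _

lemma mass_mono (x : E G →L[ℂ] E G) {A B : Set G} (h : A ⊆ B) : mass x A ≤ mass x B := by
  unfold mass
  rw [E.norm_sq_eq_tsum, E.norm_sq_eq_tsum]
  refine (E.summable_sq _).tsum_le_tsum ?_ (E.summable_sq _)
  intro g
  by_cases hg : g ∈ A
  · rw [ind_apply_of_mem hg, ind_apply_of_mem (h hg)]
  · rw [ind_apply_of_notMem hg]
    simp

lemma le_mass (x : E G →L[ℂ] E G) {A : Set G} {g : G} (hg : g ∈ A) : ‖cf x g‖ ^ 2 ≤ mass x A := by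
  unfold mass
  rw [E.norm_sq_eq_tsum]
  refine le_trans (le_of_eq ?_) ((E.summable_sq (ind A (x (dl 1)))).le_tsum g
    fun _ _ => by positivity)
  rw [ind_apply_of_mem hg]
  rfl

lemma mass_star {x : E G →L[ℂ] E G} (hx : x ∈ LG G) (A : Set G) :
    mass (star x) A = mass x {g | g⁻¹ ∈ A} := by
  unfold mass
  rw [E.norm_sq_eq_tsum, E.norm_sq_eq_tsum, ← (Equiv.inv G).tsum_eq]
  refine tsum_congr fun g => ?_
  simp only [Equiv.inv_apply]
  by_cases hg : g⁻¹ ∈ A
  · rw [ind_apply_of_mem hg, ind_apply_of_mem (by exact hg)]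
    have h1 : (star x (dl 1) : E G) g⁻¹ = conj (cf x g) := by
      have h2 := cf_star hx g⁻¹
      rw [inv_inv] at h2
      exact h2
    rw [h1]
    simp [cf]
  · rw [ind_apply_of_notMem hg, ind_apply_of_notMem (by exact hg)]

/-- Left multiplication by a unitary of `vn K` does not change the masses on right cosets. -/
lemma mass_mul_left {K : Subgroup G} {a x : E G →L[ℂ] E G} (ha : a ∈ vn K) (ha1 : star a * a = 1)
    (A : Set G) (hA : ∀ k ∈ K, ∀ g, g ∈ A ↔ k * g ∈ A) : mass (a * x) A = mass x A := by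
  unfold mass
  have h1 : ind A * a = a * ind A := by
    rw [mem_vn_iff] at ha
    refine ha (ind A) fun k hk => ?_
    ext f g
    change ind A f (k⁻¹ * g) = ind A (u k f) g
    by_cases hg : g ∈ A
    · rw [ind_apply_of_mem hg, ind_apply_of_mem ((hA _ (K.inv_mem hk) g).1 hg), u_apply]
    · rw [ind_apply_of_notMem hg,
        ind_apply_of_notMem (fun h => hg ((hA _ (K.inv_mem hk) g).2 h))]
  have h2 : ind A ((a * x) (dl 1)) = a (ind A (x (dl 1))) :=
    congrArg (fun t => t (x (dl 1))) h1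
  rw [h2]
  have h3 : ∀ f : E G, ‖a f‖ ^ 2 = ‖f‖ ^ 2 := by
    intro f
    have h4 : inner ℂ (a f) (a f) = inner ℂ f f := by
      rw [← inner_star_left]
      congr 1
      exact congrArg (fun t => t f) ha1
    rw [inner_self', inner_self'] at h4
    exact_mod_cast h4
  exact h3 _

/-- Right multiplication by a unitary of `vn K` does not change the masses on left cosets. -/
lemma mass_mul_right {K : Subgroup G} {a x : E G →L[ℂ] E G} (hx : x ∈ LG G) (ha : a ∈ vn K)
    (ha1 : a * star a = 1) (A : Set G) (hA : ∀ k ∈ K, ∀ g, g ∈ A ↔ g * k ∈ A) :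
    mass (x * a) A = mass x A := by
  have hB : ∀ B : Set G, {g : G | g⁻¹ ∈ {g | g⁻¹ ∈ B}} = B := by
    intro B
    ext g
    simp
  have h1 : mass (x * a) A = mass (star (x * a)) {g | g⁻¹ ∈ A} := by
    rw [mass_star (mul_mem hx (mem_top_of_mem ha)), hB]
  have h2 : mass x A = mass (star x) {g | g⁻¹ ∈ A} := by
    rw [mass_star hx, hB]
  rw [h1, h2, star_mul]
  refine mass_mul_left (top_star ha) (by rw [star_star]; exact ha1) _ ?_
  intro k hk g
  simp only [Set.mem_ofPred_eq, mul_inv_rev]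
  exact hA _ (K.inv_mem hk) _

lemma mass_mul_u {x : E G →L[ℂ] E G} (hx : x ∈ LG G) (c : G) (A : Set G) :
    mass (x * u c) A = mass x {g | g * c ∈ A} := by
  unfold mass
  rw [E.norm_sq_eq_tsum, E.norm_sq_eq_tsum, ← (Equiv.mulRight c).tsum_eq]
  refine tsum_congr fun g => ?_
  simp only [Equiv.coe_mulRight]
  by_cases hg : g * c ∈ A
  · rw [ind_apply_of_mem hg, ind_apply_of_mem (by exact hg)]
    have h1 : ((x * u c) (dl 1) : E G) (g * c) = cf x g := by
      have h2 := cf_mul_u hx c (g * c)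
      rw [mul_inv_cancel_right] at h2
      exact h2
    rw [h1]
    rfl
  · rw [ind_apply_of_notMem hg, ind_apply_of_notMem (by exact hg)]

end Pool.Agent.Helper35.VN
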