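import Pool.Agent.Helper35.VN.Finite

/-!
# One normal subgroup whose algebra is conjugate to a group subalgebra
-/

set_option autoImplicit false
set_option linter.unusedSectionVars false

open scoped ComplexConjugate

noncomputable section

namespace Pool.Agent.Helper35.VN

variable {G : Type*} [Group G] {Γ Λ : Type*} [Group Γ] [Group Λ]

/-- `w ∈ L(G)` is unitary. -/
def IsU (w : E G →L[ℂ] E G) : Prop := w ∈ LG G ∧ star w * w = 1 ∧ w * star w = 1

lemma IsU.mul {v w : E G →L[ℂ] E G} (hv : IsU v) (hw : IsU w) : IsU (v * w) := by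
  refine ⟨mul_mem hv.1 hw.1, ?_, ?_⟩
  · rw [star_mul, mul_assoc, ← mul_assoc (star v), hv.2.1, one_mul, hw.2.1]
  · rw [star_mul, mul_assoc, ← mul_assoc w, hw.2.2, one_mul, hv.2.2]

lemma IsU.adj {w : E G →L[ℂ] E G} (hw : IsU w) : IsU (star w) :=
  ⟨star_mem hw.1, by rw [star_star]; exact hw.2.2, by rw [star_star]; exact hw.2.1⟩

lemma isU_u (g : G) : IsU (u g) := ⟨u_mem_top g, u_star_mul g, u_mul_star g⟩

lemma IsU.theta (θ : Iso Γ Λ) {x : (LG Γ).toStarSubalgebra} (hx : IsU (x : E Γ →L[ℂ] E Γ)) :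
    IsU (θ x : E Λ →L[ℂ] E Λ) := by
  have h1 : star x * x = 1 := Subtype.ext hx.2.1
  have h2 : x * star x = 1 := Subtype.ext hx.2.2
  have h3 := congrArg θ h1
  have h4 := congrArg θ h2
  rw [map_mul, map_star, map_one] at h3 h4
  exact ⟨(θ x).2, congrArg Subtype.val h3, congrArg Subtype.val h4⟩

/-- An element of `L(G)` which commutes with `u n` for `n` in a relatively icc subgroup is a
scalar. -/
lemma scalar_of_comm {N : Subgroup G} (hN : RelIcc N) {x : E G →L[ℂ] E G} (hx : x ∈ LG G)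
    (h : ∀ n ∈ N, x * u n = u n * x) : x = (cf x 1) • (1 : E G →L[ℂ] E G) := by
  classical
  refine ext_cf hx (smul_mem' _ (one_mem _)) fun g => ?_
  rw [cf_smul, cf_one]
  by_cases hg : g = 1
  · rw [hg, if_pos rfl, mul_one]
  · rw [if_neg hg, mul_zero]
    by_contra hne
    apply hN g hg
    refine (finite_of_const (x (dl 1)) hne).subset ?_
    rintro y ⟨n, hn, rfl⟩
    change cf x (n * g * n⁻¹) = cf x g
    have h1 := congrArg (fun t => cf t (n * g)) (h n hn)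
    rw [cf_mul_u hx, cf_u_mul, inv_mul_cancel_left] at h1
    exact h1

/-- The hypothesis on one level: `θ(L(N)) = w L(H) w*`. -/
def Level (θ : Iso Γ Λ) (N : Subgroup Γ) (H : Subgroup Λ) (w : E Λ →L[ℂ] E Λ) : Prop :=
  ∀ x : (LG Γ).toStarSubalgebra, (x : E Γ →L[ℂ] E Γ) ∈ vn N ↔
    star w * (θ x : E Λ →L[ℂ] E Λ) * w ∈ vn H

/-- The preimage under `θ`. -/
lemma exists_pre (θ : Iso Γ Λ) {y : E Λ →L[ℂ] E Λ} (hy : y ∈ LG Λ) :
    ∃ x : (LG Γ).toStarSubalgebra, (θ x : E Λ →L[ℂ] E Λ) = y :=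
  ⟨θ.symm ⟨y, hy⟩, by rw [StarAlgEquiv.apply_symm_apply]⟩

lemma Level.exists_of_mem {θ : Iso Γ Λ} {N : Subgroup Γ} {H : Subgroup Λ} {w : E Λ →L[ℂ] E Λ}
    (hl : Level θ N H w) (hw : IsU w) {y : E Λ →L[ℂ] E Λ} (hy : y ∈ vn H) :
    ∃ x : (LG Γ).toStarSubalgebra, (x : E Γ →L[ℂ] E Γ) ∈ vn N ∧
      (θ x : E Λ →L[ℂ] E Λ) = w * y * star w := by
  obtain ⟨x, hx⟩ := exists_pre θ
    (mul_mem (mul_mem hw.1 (mem_top_of_mem hy)) (star_mem hw.1) : w * y * star w ∈ LG Λ)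
  refine ⟨x, ?_, hx⟩
  rw [hl x, hx]
  have h1 : star w * (w * y * star w) * w = y := by
    have : star w * (w * y * star w) * w = (star w * w) * y * (star w * w) := by
      simp only [mul_assoc]
    rw [this, hw.2.1, one_mul, mul_one]
  rw [h1]
  exact hy

/-- Relative icc passes to `H`. -/
lemma Level.relIcc {θ : Iso Γ Λ} {N : Subgroup Γ} {H : Subgroup Λ} {w : E Λ →L[ℂ] E Λ}
    (hl : Level θ N H w) (hw : IsU w) (hN : RelIcc N) : RelIcc H := by
  classical
  intro g hg hfin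
  set O := hfin.toFinset with hO
  set z : E Λ →L[ℂ] E Λ := ∑ y ∈ O, u y with hz
  have hzmem : z ∈ LG Λ := sum_mem fun y _ => u_mem_top y
  have hcomm : ∀ h ∈ H, u h * z = z * u h := by
    intro h hh
    rw [hz, Finset.mul_sum, Finset.sum_mul]
    refine Finset.sum_bij (fun y _ => h * y * h⁻¹) ?_ ?_ ?_ ?_
    · intro y hy
      rw [hO, Set.Finite.mem_toFinset] at hy ⊢
      obtain ⟨k, hk, rfl⟩ := hy
      exact ⟨h * k, H.mul_mem hh hk, by group⟩
    · intro a _ b _ hab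
      simpa using hab
    · intro b hb
      rw [hO, Set.Finite.mem_toFinset] at hb
      obtain ⟨k, hk, rfl⟩ := hb
      refine ⟨h⁻¹ * k * g * (h⁻¹ * k)⁻¹, ?_, by group⟩
      rw [hO, Set.Finite.mem_toFinset]
      exact ⟨h⁻¹ * k, H.mul_mem (H.inv_mem hh) hk, rfl⟩
    · intro a _
      rw [← u_mul, ← u_mul]
      congr 1
      group
  have hcomm2 : ∀ y ∈ vn H, z * y = y * z := by
    intro y hy
    rw [mem_vn_iff] at hy
    exact hy z hcomm
  obtain ⟨x, hx⟩ := exists_pre θ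
    (mul_mem (mul_mem hw.1 hzmem) (star_mem hw.1) : w * z * star w ∈ LG Λ)
  have hxc : ∀ n ∈ N, (x : E Γ →L[ℂ] E Γ) * u n = u n * (x : E Γ →L[ℂ] E Γ) := by
    intro n hn
    have h1 : star w * (θ (U n) : E Λ →L[ℂ] E Λ) * w ∈ vn H := (hl (U n)).1 (u_mem N hn)
    have h2 := hcomm2 _ h1
    have h3 : (θ x : E Λ →L[ℂ] E Λ) * (θ (U n) : E Λ →L[ℂ] E Λ) =
        (θ (U n) : E Λ →L[ℂ] E Λ) * (θ x : E Λ →L[ℂ] E Λ) := by
      rw [hx]
      have h4 : w * z * star w * (θ (U n) : E Λ →L[ℂ] E Λ) =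
          w * (z * (star w * (θ (U n) : E Λ →L[ℂ] E Λ) * w)) * star w := by
        simp only [mul_assoc, hw.2.2, mul_one]
      rw [h4, h2]
      have h5 : w * (star w * (θ (U n) : E Λ →L[ℂ] E Λ) * w * z) * star w =
          (w * star w) * ((θ (U n) : E Λ →L[ℂ] E Λ) * (w * z * star w)) := by
        simp only [mul_assoc]
      rw [h5, hw.2.2, one_mul]
    have h6 : θ (x * U n) = θ (U n * x) := by
      rw [map_mul, map_mul]
      exact Subtype.ext h3
    exact congrArg Subtype.val (θ.injective h6)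
  have h7 := scalar_of_comm hN x.2 hxc
  set c := cf (x : E Γ →L[ℂ] E Γ) 1 with hc
  have h8 : (θ x : E Λ →L[ℂ] E Λ) = c • (1 : E Λ →L[ℂ] E Λ) := by
    have h9 : x = c • (1 : (LG Γ).toStarSubalgebra) := Subtype.ext h7
    rw [h9, map_smul, map_one]
    rfl
  have h10 : z = c • (1 : E Λ →L[ℂ] E Λ) := by
    have h11 : z = star w * (w * z * star w) * w := by
      have : star w * (w * z * star w) * w = (star w * w) * z * (star w * w) := by
        simp only [mul_assoc]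
      rw [this, hw.2.1, one_mul, mul_one]
    rw [h11, ← hx, h8, mul_smul_comm, mul_one, smul_mul_assoc, hw.2.1]
  have h12 : cf z g = 1 := by
    have h13 : cf z g = ∑ y ∈ O, cf (u y) g := by
      rw [hz]
      unfold cf
      rw [sum_apply, E.sum_apply]
    rw [h13, Finset.sum_eq_single_of_mem g]
    · rw [cf_u, if_pos rfl]
    · rw [hO, Set.Finite.mem_toFinset]
      exact ⟨1, H.one_mem, by simp⟩
    · intro b _ hb
      rw [cf_u, if_neg (Ne.symm hb)]
  rw [h10, cf_smul, cf_one, if_neg hg, mul_zero] at h12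
  exact zero_ne_one h12

/-- Some coefficient of a unitary is nonzero. -/
lemma IsU.exists_cf_ne {w : E G →L[ℂ] E G} (hw : IsU w) : ∃ c, cf w c ≠ 0 := by
  classical
  by_contra h
  push Not at h
  have h1 : w = 0 := ext_cf hw.1 (zero_mem _) fun g => by
    rw [h g]
    rfl
  have h2 := hw.2.1
  rw [h1, mul_zero] at h2
  have h3 := congrArg (fun t => cf t (1 : G)) h2
  simp only [cf_one, if_true] at h3
  exact zero_ne_one (α := ℂ) h3

/-- The coset relation: `w* θ(u_g) w ∈ L(H) u_c`. -/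
def Good (θ : Iso Γ Λ) (H : Subgroup Λ) (w : E Λ →L[ℂ] E Λ) (g : Γ) (c : Λ) : Prop :=
  star w * (θ (U g) : E Λ →L[ℂ] E Λ) * w * u c⁻¹ ∈ vn H

lemma isU_W (θ : Iso Γ Λ) {w : E Λ →L[ℂ] E Λ} (hw : IsU w) (g : Γ) :
    IsU (star w * (θ (U g) : E Λ →L[ℂ] E Λ) * w) :=
  (hw.adj.mul (IsU.theta θ (isU_u g))).mul hw

lemma Level.W_conj {θ : Iso Γ Λ} {N : Subgroup Γ} [hNn : N.Normal] {H : Subgroup Λ}
    {w : E Λ →L[ℂ] E Λ} (hl : Level θ N H w) (hw : IsU w) (g : Γ) {y : E Λ →L[ℂ] E Λ}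
    (hy : y ∈ vn H) :
    (star w * (θ (U g) : E Λ →L[ℂ] E Λ) * w) * y *
      star (star w * (θ (U g) : E Λ →L[ℂ] E Λ) * w) ∈ vn H := by
  obtain ⟨x, hx, hxy⟩ := hl.exists_of_mem hw hy
  have h1 : u g * (x : E Γ →L[ℂ] E Γ) * star (u g) ∈ vn N := by
    refine mem_of_cf (mul_mem (mul_mem (u_mem_top g) x.2) (star_mem (u_mem_top g))) ?_
    intro k hk
    rw [star_u, cf_mul_u (mul_mem (u_mem_top g) x.2), inv_inv, cf_u_mul]
    refine cf_eq_zero_of_mem hx fun h2 => hk ?_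
    have h3 := hNn.conj_mem _ h2 g
    have h4 : g * (g⁻¹ * (k * g)) * g⁻¹ = k := by group
    rwa [h4] at h3
  have h2 := (hl (U g * x * star (U g))).1 h1
  have h3 : (θ (U g * x * star (U g)) : E Λ →L[ℂ] E Λ) =
      (θ (U g) : E Λ →L[ℂ] E Λ) * (w * y * star w) * star (θ (U g) : E Λ →L[ℂ] E Λ) := by
    rw [map_mul, map_mul, map_star]
    change (θ (U g) : E Λ →L[ℂ] E Λ) * (θ x : E Λ →L[ℂ] E Λ) * star (θ (U g) : E Λ →L[ℂ] E Λ) = _
    rw [hxy]
  rw [h3] at h2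
  have h4 : (star w * (θ (U g) : E Λ →L[ℂ] E Λ) * w) * y *
      star (star w * (θ (U g) : E Λ →L[ℂ] E Λ) * w) =
      star w * ((θ (U g) : E Λ →L[ℂ] E Λ) * (w * y * star w) *
        star (θ (U g) : E Λ →L[ℂ] E Λ)) * w := by
    rw [star_mul, star_mul, star_star]
    simp only [mul_assoc]
  rw [h4]
  exact h2

/-- A nonzero coefficient determines the coset. -/
lemma Level.good_of_cf {θ : Iso Γ Λ} {N : Subgroup Γ} [hNn : N.Normal] {H : Subgroup Λ}
    {w : E Λ →L[ℂ] E Λ} (hl : Level θ N H w) (hw : IsU w) (hN : RelIcc N) {g : Γ} {c : Λ}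
    (hc : cf (star w * (θ (U g) : E Λ →L[ℂ] E Λ) * w) c ≠ 0) : Good θ H w g c := by
  have hW := isU_W θ hw g
  refine mem_coset (hl.relIcc hw hN) hW.1 hW.2.1 hW.2.2 ?_ hc
  intro h hh
  exact hl.W_conj hw g (u_mem H hh)

lemma Level.exists_good {θ : Iso Γ Λ} {N : Subgroup Γ} [hNn : N.Normal] {H : Subgroup Λ}
    {w : E Λ →L[ℂ] E Λ} (hl : Level θ N H w) (hw : IsU w) (hN : RelIcc N) (g : Γ) :
    ∃ c, Good θ H w g c := by
  obtain ⟨c, hc⟩ := (isU_W θ hw g).exists_cf_ne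
  exact ⟨c, hl.good_of_cf hw hN hc⟩

/-- Every element of `Λ` occurs. -/
lemma exists_cf_W_ne {θ : Iso Γ Λ} (hθ : TracePreserving θ) {w : E Λ →L[ℂ] E Λ} (hw : IsU w)
    (c : Λ) : ∃ g : Γ, cf (star w * (θ (U g) : E Λ →L[ℂ] E Λ) * w) c ≠ 0 := by
  classical
  by_contra hcon
  push Not at hcon
  obtain ⟨x, hx⟩ := exists_pre θ
    (mul_mem (mul_mem hw.1 (u_mem_top c)) (star_mem hw.1) : w * u c * star w ∈ LG Λ)
  have h1 : (x : E Γ →L[ℂ] E Γ) = 0 := by
    refine ext_cf x.2 (zero_mem _) fun g => ?_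
    have h2 := hθ.inner_eq (U g) x
    rw [coe_U, u_dl, mul_one, inner_dl] at h2
    have h3 : inner ℂ ((θ (U g) : E Λ →L[ℂ] E Λ) (dl 1)) ((θ x : E Λ →L[ℂ] E Λ) (dl 1)) =
        conj (cf (star w * (θ (U g) : E Λ →L[ℂ] E Λ) * w) c) := by
      rw [inner_apply_dl, hx]
      have hWm : star w * (θ (U g) : E Λ →L[ℂ] E Λ) * w ∈ LG Λ := (isU_W θ hw g).1
      have h4 : cf (star (θ (U g) : E Λ →L[ℂ] E Λ) * (w * u c * star w)) 1 =
          cf (star w * (star (θ (U g) : E Λ →L[ℂ] E Λ) * (w * u c))) 1 := by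
        rw [← cf_mul_comm (mul_mem (star_mem (θ (U g)).2) (mul_mem hw.1 (u_mem_top c)))
          (star_mem hw.1)]
        simp only [mul_assoc]
      have h5 : star w * (star (θ (U g) : E Λ →L[ℂ] E Λ) * (w * u c)) =
          star (star w * (θ (U g) : E Λ →L[ℂ] E Λ) * w) * u c := by
        rw [star_mul, star_mul, star_star]
        simp only [mul_assoc]
      rw [h4, h5, cf_mul_u (star_mem hWm), one_mul, cf_star hWm, inv_inv]
    rw [h3, hcon g, map_zero] at h2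
    exact h2.symm
  have h2 : x = 0 := Subtype.ext h1
  rw [h2, map_zero] at hx
  have h3 : u c = 0 := by
    have h4 : u c = star w * (w * u c * star w) * w := by
      have : star w * (w * u c * star w) * w = (star w * w) * u c * (star w * w) := by
        simp only [mul_assoc]
      rw [this, hw.2.1, one_mul, mul_one]
    rw [h4, ← hx]
    simp
  have h4 := cf_u c c
  rw [h3, if_pos rfl] at h4
  exact zero_ne_one h4

/-- `c` normalises `H` if it is in a good pair. -/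
lemma Level.conj_mem {θ : Iso Γ Λ} {N : Subgroup Γ} [hNn : N.Normal] {H : Subgroup Λ}
    {w : E Λ →L[ℂ] E Λ} (hl : Level θ N H w) (hw : IsU w) {g : Γ} {c : Λ}
    (hc : Good θ H w g c) {y : E Λ →L[ℂ] E Λ} (hy : y ∈ vn H) : u c * y * u c⁻¹ ∈ vn H := by
  set W := star w * (θ (U g) : E Λ →L[ℂ] E Λ) * w with hW
  have hWU := isU_W θ hw g
  have h1 := hl.W_conj hw g hy
  rw [← hW] at h1
  have hc' : W * u c⁻¹ ∈ vn H := hc
  have h2 : u c * y * u c⁻¹ = star (W * u c⁻¹) * (W * y * star W) * (W * u c⁻¹) := by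
    rw [star_mul, star_u, inv_inv]
    have : u c * star W * (W * y * star W) * (W * u c⁻¹) =
        u c * (star W * W) * y * (star W * W) * u c⁻¹ := by simp only [mul_assoc]
    rw [this, hWU.2.1, mul_one, mul_one]
  rw [h2]
  exact mul_mem (mul_mem (star_mem hc') h1) hc'

lemma mem_of_u_mem {H : Subgroup G} {g : G} (h : u g ∈ vn H) : g ∈ H := by
  classical
  by_contra hg
  have h1 := cf_eq_zero_of_mem h hg
  rw [cf_u, if_pos rfl] at h1
  exact one_ne_zero h1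

/-- `H` is normal. -/
lemma Level.normal {θ : Iso Γ Λ} (hθ : TracePreserving θ) {N : Subgroup Γ} [hNn : N.Normal]
    {H : Subgroup Λ} {w : E Λ →L[ℂ] E Λ} (hl : Level θ N H w) (hw : IsU w) (hN : RelIcc N) :
    H.Normal := by
  refine ⟨fun h hh c => ?_⟩
  obtain ⟨g, hg⟩ := exists_cf_W_ne hθ hw c
  have h1 := hl.conj_mem hw (hl.good_of_cf hw hN hg) (u_mem H hh)
  rw [← u_mul, ← u_mul] at h1
  exact mem_of_u_mem h1

/-- Changing `w` to `w a`, `a ∈ L(H)` unitary, or `w u_c`. -/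
lemma Level.mul_right {θ : Iso Γ Λ} {N : Subgroup Γ} {H : Subgroup Λ} {w a : E Λ →L[ℂ] E Λ}
    (hl : Level θ N H w) (ha : ∀ y : E Λ →L[ℂ] E Λ, y ∈ vn H ↔ star a * y * a ∈ vn H) :
    Level θ N H (w * a) := by
  intro x
  rw [hl x, ha]
  have h1 : star a * (star w * (θ x : E Λ →L[ℂ] E Λ) * w) * a =
      star (w * a) * (θ x : E Λ →L[ℂ] E Λ) * (w * a) := by
    rw [star_mul]
    simp only [mul_assoc]
  rw [h1]

lemma conj_vn_iff {H : Subgroup G} {a : E G →L[ℂ] E G} (ha : a ∈ vn H) (hu : IsU a)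
    (y : E G →L[ℂ] E G) : y ∈ vn H ↔ star a * y * a ∈ vn H := by
  constructor
  · intro h
    exact mul_mem (mul_mem (star_mem ha) h) ha
  · intro h
    have h1 : y = a * (star a * y * a) * star a := by
      have : a * (star a * y * a) * star a = (a * star a) * y * (a * star a) := by
        simp only [mul_assoc]
      rw [this, hu.2.2, one_mul, mul_one]
    rw [h1]
    exact mul_mem (mul_mem ha h) (star_mem ha)

lemma conj_u_mem {H : Subgroup G} [hH : H.Normal] (c : G) {y : E G →L[ℂ] E G} (hy : y ∈ vn H) :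
    u c * y * u c⁻¹ ∈ vn H := by
  have hy' := mem_top_of_mem hy
  refine mem_of_cf (mul_mem (mul_mem (u_mem_top c) hy') (u_mem_top c⁻¹)) fun k hk => ?_
  rw [cf_mul_u (mul_mem (u_mem_top c) hy'), inv_inv, cf_u_mul]
  refine cf_eq_zero_of_mem hy fun h => hk ?_
  have h3 := hH.conj_mem _ h c
  have h4 : c * (c⁻¹ * (k * c)) * c⁻¹ = k := by group
  rwa [h4] at h3

lemma conj_u_vn_iff {H : Subgroup G} [hH : H.Normal] (c : G) (y : E G →L[ℂ] E G) :
    y ∈ vn H ↔ star (u c) * y * u c ∈ vn H := by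
  rw [star_u]
  constructor
  · intro h
    have := conj_u_mem c⁻¹ h
    rwa [inv_inv] at this
  · intro h
    have h1 := conj_u_mem c h
    have h2 : u c * (u c⁻¹ * y * u c) * u c⁻¹ = y := by
      have : u c * (u c⁻¹ * y * u c) * u c⁻¹ = (u c * u c⁻¹) * y * (u c * u c⁻¹) := by
        simp only [mul_assoc]
      rw [this, ← u_mul, mul_inv_cancel, u_one, one_mul, mul_one]
    rwa [h2] at h1

end Pool.Agent.Helper35.VN
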