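import Pool.Agent.Helper35.VN.Chain

/-!
# The limit of the conjugating unitaries
-/

set_option autoImplicit false
set_option linter.unusedSectionVars false

open scoped ComplexConjugate

noncomputable section

namespace Pool.Agent.Helper35.VN

variable {G : Type*} [Group G] {Γ Λ : Type*} [Group Γ] [Group Λ]

/-- A sequence of unitaries with `v (n+1) ∈ v n L(H n)`. -/
structure Seq (H : ℕ → Subgroup Λ) (v : ℕ → (E Λ →L[ℂ] E Λ)) : Prop where
  normal : ∀ n, (H n).Normal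
  anti : Antitone H
  isU : ∀ n, IsU (v n)
  succ : ∀ n, star (v n) * v (n + 1) ∈ vn (H n)

lemma Seq.mem {H : ℕ → Subgroup Λ} {v : ℕ → (E Λ →L[ℂ] E Λ)} (h : Seq H v) {m n : ℕ}
    (hmn : m ≤ n) : star (v m) * v n ∈ vn (H m) := by
  induction n, hmn using Nat.le_induction with
  | base => rw [(h.isU m).2.1]; exact one_mem _
  | succ n hmn ih =>
    have h1 := mul_mem ih (vn_mono (h.anti hmn) (h.succ n))
    have h2 : star (v m) * v n * (star (v n) * v (n + 1)) =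
        star (v m) * (v n * star (v n)) * v (n + 1) := by simp only [mul_assoc]
    rw [h2, (h.isU n).2.2, mul_one] at h1
    exact h1

lemma mass_one {x : E G →L[ℂ] E G} (h : star x * x = 1) : ‖x (dl (1 : G))‖ ^ 2 = 1 := by
  have h1 : inner ℂ (x (dl (1 : G))) (x (dl 1)) = (1 : ℂ) := by
    rw [← inner_star_left]
    have h2 : star x (x (dl (1 : G))) = dl 1 := congrArg (fun t => t (dl (1 : G))) h
    rw [h2, inner_self', norm_dl]
    simp
  rw [inner_self'] at h1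
  exact_mod_cast h1

/-- Only finitely many cosets are heavy. -/
lemma finite_heavy (H : Subgroup G) {x : E G →L[ℂ] E G} (hx : star x * x = 1) {ε : ℝ}
    (hε : 0 < ε) :
    {A : Set G | ∃ c, ε ≤ mass x {g | c⁻¹ * g ∈ H} ∧ A = {g | c⁻¹ * g ∈ H}}.Finite := by
  by_contra hinf
  obtain ⟨n, hn⟩ := exists_nat_gt (1 / ε)
  obtain ⟨s, hs1, hs2⟩ := Set.Infinite.exists_subset_card_eq hinf n
  have h1 := sum_norm_ind_sq_le s (fun A => A) (by
    intro A hA B hB hAB
    obtain ⟨c, hc, rfl⟩ := hs1 hA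
    obtain ⟨d, hd, rfl⟩ := hs1 hB
    rw [Set.disjoint_left]
    intro y hy hy'
    apply hAB
    have hy1 : c⁻¹ * y ∈ H := hy
    have hy2 : d⁻¹ * y ∈ H := hy'
    ext z
    change c⁻¹ * z ∈ H ↔ d⁻¹ * z ∈ H
    have h2 : d⁻¹ * y * (c⁻¹ * y)⁻¹ ∈ H := H.mul_mem hy2 (H.inv_mem hy1)
    have h3 : d⁻¹ * z = d⁻¹ * y * (c⁻¹ * y)⁻¹ * (c⁻¹ * z) := by group
    rw [h3]
    exact (Subgroup.mul_mem_cancel_left H h2).symm) (x (dl 1))
  have h2 : ∀ A ∈ s, ε ≤ ‖ind A (x (dl 1))‖ ^ 2 := by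
    intro A hA
    obtain ⟨c, hc, rfl⟩ := hs1 hA
    exact hc
  have h3 := Finset.card_nsmul_le_sum s _ ε h2
  rw [hs2, nsmul_eq_mul] at h3
  rw [mass_one hx] at h1
  rw [div_lt_iff₀ hε] at hn
  linarith

/-- A compatible sequence of heavy cosets. -/
lemma Seq.exists_branch {H : ℕ → Subgroup Λ} {v : ℕ → (E Λ →L[ℂ] E Λ)} (h : Seq H v) {ε : ℝ}
    (hε : 0 < ε) (hheavy : ∀ n, ∃ c, ε ≤ mass (v n) {g | c⁻¹ * g ∈ H n}) :
    ∃ d : ℕ → Λ, (∀ n, ε ≤ mass (v n) {g | (d n)⁻¹ * g ∈ H n}) ∧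
      ∀ n, (d n)⁻¹ * d (n + 1) ∈ H n := by
  choose x hx using hheavy
  have hdown : ∀ m n, m ≤ n → ∀ c, ε ≤ mass (v n) {g | c⁻¹ * g ∈ H n} →
      ε ≤ mass (v m) {g | c⁻¹ * g ∈ H m} := by
    intro m n hmn c hc
    have h1 : v n = v m * (star (v m) * v n) := by
      rw [← mul_assoc, (h.isU m).2.2, one_mul]
    have h2 : mass (v n) {g | c⁻¹ * g ∈ H m} = mass (v m) {g | c⁻¹ * g ∈ H m} := by
      conv_lhs => rw [h1]
      refine mass_mul_right (h.isU m).1 (h.mem hmn) ((h.isU m).adj.mul (h.isU n)).2.2 _ ?_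
      intro k hk g
      change c⁻¹ * g ∈ H m ↔ c⁻¹ * (g * k) ∈ H m
      rw [← mul_assoc]
      exact (Subgroup.mul_mem_cancel_right (H m) hk).symm
    rw [← h2]
    exact hc.trans (mass_mono _ fun g hg => h.anti hmn hg)
  have key : ∀ m, ∃ d, ε ≤ mass (v m) {g | d⁻¹ * g ∈ H m} ∧
      ∀ᶠ n in (Filter.hyperfilter ℕ : Filter ℕ), d⁻¹ * x n ∈ H m := by
    intro m
    have hfin := finite_heavy (H m) (h.isU m).2.1 hε
    have h1 : (⋃ A ∈ {A : Set Λ | ∃ c, ε ≤ mass (v m) {g | c⁻¹ * g ∈ H m} ∧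
        A = {g | c⁻¹ * g ∈ H m}}, x ⁻¹' A) ∈ (Filter.hyperfilter ℕ) := by
      have h2 : {n | m ≤ n} ∈ (Filter.hyperfilter ℕ : Filter ℕ) := by
        apply Filter.mem_hyperfilter_of_finite_compl
        refine (Set.finite_lt_nat m).subset ?_
        intro n hn
        have hn' : ¬ m ≤ n := hn
        exact not_le.1 hn'
      refine Filter.mem_of_superset h2 ?_
      intro n hn
      refine Set.mem_biUnion (x := {g | (x n)⁻¹ * g ∈ H m}) ⟨x n, hdown m n hn _ (hx n), rfl⟩ ?_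
      change (x n)⁻¹ * x n ∈ H m
      rw [inv_mul_cancel]
      exact (H m).one_mem
    rw [Ultrafilter.finite_biUnion_mem_iff hfin] at h1
    obtain ⟨A, ⟨d, hd, rfl⟩, hA⟩ := h1
    exact ⟨d, hd, hA⟩
  choose d hd1 hd2 using key
  refine ⟨d, hd1, fun n => ?_⟩
  obtain ⟨k, hk1, hk2⟩ := ((hd2 n).and (hd2 (n + 1))).exists
  have h1 := (H n).mul_mem hk1 ((H n).inv_mem (h.anti (Nat.le_succ n) hk2))
  have h2 : (d n)⁻¹ * x k * ((d (n + 1))⁻¹ * x k)⁻¹ = (d n)⁻¹ * d (n + 1) := by group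
  rwa [h2] at h1

/-- Replacing `v n` by `v n u_{d n}⁻¹`. -/
lemma Seq.shift {H : ℕ → Subgroup Λ} {v : ℕ → (E Λ →L[ℂ] E Λ)} (h : Seq H v) {d : ℕ → Λ}
    (hd : ∀ n, (d n)⁻¹ * d (n + 1) ∈ H n) : Seq H (fun n => v n * u (d n)⁻¹) := by
  refine ⟨h.normal, h.anti, fun n => (h.isU n).mul (isU_u _), fun n => ?_⟩
  have := h.normal n
  have h1 := conj_u_mem (d n) (h.succ n)
  have h2 : u (d n * (d (n + 1))⁻¹) ∈ vn (H n) := by
    apply u_mem
    have h3 := (h.normal n).conj_mem _ ((H n).inv_mem (hd n)) (d n)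
    have h4 : d n * ((d n)⁻¹ * d (n + 1))⁻¹ * (d n)⁻¹ = d n * (d (n + 1))⁻¹ := by group
    rwa [h4] at h3
  have h3 := mul_mem h1 h2
  have h4 : u (d n) * (star (v n) * v (n + 1)) * u (d n)⁻¹ * u (d n * (d (n + 1))⁻¹) =
      star (v n * u (d n)⁻¹) * (v (n + 1) * u (d (n + 1))⁻¹) := by
    rw [star_mul, star_u, inv_inv, u_mul (d n)]
    have : u (d n) * (star (v n) * v (n + 1)) * u (d n)⁻¹ * (u (d n) * u (d (n + 1))⁻¹) =
        u (d n) * star (v n) * (v (n + 1) * (u (d n)⁻¹ * u (d n)) * u (d (n + 1))⁻¹) := by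
      simp only [mul_assoc]
    rw [this, ← u_mul, inv_mul_cancel, u_one, mul_one]
  rw [h4] at h3
  exact h3

/-- The limit vector. -/
lemma Seq.exists_vector {H : ℕ → Subgroup Λ} {v : ℕ → (E Λ →L[ℂ] E Λ)} (h : Seq H v) {ε : ℝ}
    (hε : 0 < ε) (hheavy : ∀ n, ε ≤ mass (v n) (H n : Set Λ)) :
    ∃ ξ : E Λ, ‖ξ‖ = 1 ∧ ∀ n, ind (H n : Set Λ) (star (v n) ξ) = star (v n) ξ := by
  set p : ℕ → E Λ → E Λ := fun n f => v n (ind (H n : Set Λ) (star (v n) f)) with hp
  have e1 : ∀ n f, star (v n) (v n f) = f := fun n f => congrArg (fun t => t f) (h.isU n).2.1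
  have e2 : ∀ n f, v n (star (v n) f) = f := fun n f => congrArg (fun t => t f) (h.isU n).2.2
  have hq : ∀ m n, m ≤ n → ∀ f, ind (H m : Set Λ) (star (v m) (p n f)) = star (v m) (p n f) := by
    intro m n hmn f
    have h1 : star (v m) (p n f) = (star (v m) * v n) (ind (H n : Set Λ) (star (v n) f)) := rfl
    rw [h1, ind_comm_of_mem (h.mem hmn)]
    congr 1
    ext g
    by_cases hg : g ∈ H m
    · rw [ind_apply_of_mem (SetLike.mem_coe.2 hg)]
    · rw [ind_apply_of_notMem (fun h => hg (SetLike.mem_coe.1 h)), ind_apply_of_notMem]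
      intro h2
      exact hg (h.anti hmn (SetLike.mem_coe.1 h2))
  have hpp : ∀ m n, m ≤ n → ∀ f, p m (p n f) = p n f := by
    intro m n hmn f
    change v m (ind (H m : Set Λ) (star (v m) (p n f))) = p n f
    rw [hq m n hmn, e2]
  have hps : ∀ n f k, inner ℂ (p n f) k = inner ℂ f (p n k) := by
    intro n f k
    simp only [hp]
    have h1 : ind (H n : Set Λ) (star (v n) f) = star (ind (H n : Set Λ)) (star (v n) f) := by
      rw [star_ind]
    rw [← inner_star_right, h1, inner_star_left, inner_star_left]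
  set δ : E Λ := dl 1 with hδ
  have hself : ∀ n, inner ℂ δ (p n δ) = ((‖p n δ‖ ^ 2 : ℝ) : ℂ) := by
    intro n
    rw [← inner_self', hps, hpp n n le_rfl]
  have hdiff : ∀ m n, m ≤ n → ‖p m δ - p n δ‖ ^ 2 = ‖p m δ‖ ^ 2 - ‖p n δ‖ ^ 2 := by
    intro m n hmn
    have h1 : inner ℂ (p m δ - p n δ) (p m δ - p n δ) =
        ((‖p m δ‖ ^ 2 : ℝ) : ℂ) - ((‖p n δ‖ ^ 2 : ℝ) : ℂ) := by
      rw [inner_sub_left, inner_sub_right, inner_sub_right, inner_self', inner_self']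
      have h2 : inner ℂ (p m δ) (p n δ) = ((‖p n δ‖ ^ 2 : ℝ) : ℂ) := by
        rw [hps, hpp m n hmn, hself]
      have h3 : inner ℂ (p n δ) (p m δ) = ((‖p n δ‖ ^ 2 : ℝ) : ℂ) := by
        rw [← inner_conj_symm, h2, Complex.conj_ofReal]
      rw [h2, h3]
      ring
    rw [inner_self'] at h1
    exact_mod_cast h1
  have hanti : Antitone fun n => ‖p n δ‖ ^ 2 := by
    intro m n hmn
    have := hdiff m n hmn
    have h2 := sq_nonneg ‖p m δ - p n δ‖
    simp only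
    linarith
  have hconv := tendsto_atTop_ciInf hanti ⟨0, by rintro _ ⟨n, rfl⟩; positivity⟩
  have hcau : CauchySeq fun n => p n δ := by
    rw [Metric.cauchySeq_iff']
    intro η hη
    have h1 := hconv.cauchySeq
    rw [Metric.cauchySeq_iff'] at h1
    obtain ⟨K, hK⟩ := h1 (η ^ 2) (by positivity)
    refine ⟨K, fun n hn => ?_⟩
    have h2 := hK n hn
    rw [Real.dist_eq] at h2
    have h3 := hdiff K n hn
    have h4 : ‖p K δ - p n δ‖ ^ 2 < η ^ 2 := by
      rw [h3]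
      rw [abs_lt] at h2
      linarith [h2.1]
    rw [dist_comm, dist_eq_norm]
    exact lt_of_pow_lt_pow_left₀ 2 hη.le h4
  obtain ⟨ξ, hξ⟩ := cauchySeq_tendsto_of_complete hcau
  have hmass : ∀ n, ε ≤ ‖p n δ‖ ^ 2 := by
    intro n
    have h1 : mass (v n) (H n : Set Λ) = mass (star (v n)) (H n : Set Λ) := by
      rw [mass_star (h.isU n).1]
      congr 1
      ext g
      simp
    have h2 : mass (star (v n)) (H n : Set Λ) = ‖p n δ‖ ^ 2 := by
      unfold mass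
      have h3 : inner ℂ (p n δ) (p n δ) = inner ℂ (ind (H n : Set Λ) (star (v n) δ))
          (ind (H n : Set Λ) (star (v n) δ)) := by
        simp only [hp]
        rw [← inner_star_left, e1]
      rw [inner_self', inner_self'] at h3
      exact_mod_cast h3.symm
    rw [← h2, ← h1]
    exact hheavy n
  have hξn : ε ≤ ‖ξ‖ ^ 2 := by
    have h1 : Filter.Tendsto (fun n => ‖p n δ‖ ^ 2) Filter.atTop (nhds (‖ξ‖ ^ 2)) :=
      (hξ.norm).pow 2
    exact ge_of_tendsto' h1 hmass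
  have hξ0 : ‖ξ‖ ≠ 0 := by
    intro h0
    rw [h0] at hξn
    norm_num at hξn
    linarith
  have hmem : ∀ n, ind (H n : Set Λ) (star (v n) ξ) = star (v n) ξ := by
    intro m
    have h1 : Filter.Tendsto (fun n => ind (H m : Set Λ) (star (v m) (p n δ))) Filter.atTop
        (nhds (ind (H m : Set Λ) (star (v m) ξ))) :=
      ((ind (H m : Set Λ)).continuous.tendsto _).comp (((star (v m)).continuous.tendsto _).comp hξ)
    have h2 : Filter.Tendsto (fun n => star (v m) (p n δ)) Filter.atTop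
        (nhds (star (v m) ξ)) := ((star (v m)).continuous.tendsto _).comp hξ
    refine tendsto_nhds_unique (h1.congr' ?_) h2
    filter_upwards [Filter.eventually_ge_atTop m] with n hn
    exact hq m n hn δ
  refine ⟨((‖ξ‖⁻¹ : ℝ) : ℂ) • ξ, ?_, fun n => ?_⟩
  · rw [norm_smul, Complex.norm_real, norm_inv, norm_norm, inv_mul_cancel₀ hξ0]
  · rw [map_smul, map_smul, hmem]

end Pool.Agent.Helper35.VN
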