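import Pool.Agent.Helper35.VN.Conv

/-!
# Isomorphisms of group factors and residual chains of subfactors
-/

set_option autoImplicit false

open scoped ComplexConjugate

namespace Pool.Agent.Helper35.VN

/-- Let `N n` be a decreasing sequence of normal subgroups of `Γ`, relatively icc and with trivial
intersection, let `θ : L(Γ) → L(Λ)` be a trace-preserving isomorphism and suppose that
`θ(L(N n)) = w_n L(H n) w_n*` for subgroups `H n` of `Λ` and unitaries `w_n` which may depend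
on `n`. -/
theorem main_op {Γ Λ : Type*} [Group Γ] [Group Λ] (θ : Iso Γ Λ) (hθ : TracePreserving θ)
    (N : ℕ → Subgroup Γ) (hN : ∀ n, (N n).Normal) (hanti : Antitone N) (hbot : ⨅ n, N n = ⊥)
    (hicc : ∀ n, RelIcc (N n)) (H : ℕ → Subgroup Λ) (w : ℕ → (E Λ →L[ℂ] E Λ))
    (hw : ∀ n, IsU (w n)) (hlevel : ∀ n, Level θ (N n) (H n) (w n)) :
    -- the completions of `Γ` and `Λ` along the two chains agree
    (∃ _ : ∀ n, (H n).Normal, Antitone H ∧ ∃ Φ : ∀ n, Γ ⧸ N n ≃* Λ ⧸ H n,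
      ∀ (n : ℕ) (g : Γ) (c : Λ), Φ (n + 1) (g : Γ ⧸ N (n + 1)) = (c : Λ ⧸ H (n + 1)) →
        Φ n (g : Γ ⧸ N n) = (c : Λ ⧸ H n)) ∧
    -- `θ` is standard if and only if the `w_n` do not spread out over the cosets of `H n`
    ((∃ ε : ℝ, 0 < ε ∧ ∀ n, ∃ c : Λ, ε ≤ ∑' h : H n, ‖cf (w n) (c * h)‖ ^ 2) ↔ Standard θ) := by
  classical
  have hH : ∀ n, (H n).Normal := fun n => by
    have := hN n
    exact (hlevel n).normal hθ (hw n) (hicc n)
  have hbot' : ∀ g, (∀ n, g ∈ N n) → g = 1 := by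
    intro g hg
    have h1 : g ∈ ⨅ n, N n := Subgroup.mem_iInf.2 hg
    rw [hbot] at h1
    exact Subgroup.mem_bot.1 h1
  have hlu : ∀ n (c : Λ), Level θ (N n) (H n) (w n * u c) := by
    intro n c
    have := hH n
    exact (hlevel n).mul_right (conj_u_vn_iff c)
  -- adjust the unitaries
  have hstep : ∀ n (c : Λ), ∃ d : Λ, star (w n * u c) * (w (n + 1) * u d) ∈ vn (H n) := by
    intro n c
    have := hH n
    exact (step (hanti (Nat.le_succ n)) (hicc (n + 1)) (hlu n c) (hlevel (n + 1))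
      ((hw n).mul (isU_u c)) (hw (n + 1))).1
  choose F hF using hstep
  let c : ℕ → Λ := fun n => Nat.rec 1 (fun k d => F k d) n
  have hc : ∀ n, star (w n * u (c n)) * (w (n + 1) * u (c (n + 1))) ∈ vn (H n) :=
    fun n => hF n (c n)
  have hantiH : Antitone H := by
    refine antitone_nat_of_succ_le fun n => ?_
    have := hH n
    exact (step (hanti (Nat.le_succ n)) (hicc (n + 1)) (hlevel n) (hlevel (n + 1))
      (hw n) (hw (n + 1))).2
  have hseq : Seq H (fun n => w n * u (c n)) :=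
    ⟨hH, hantiH, fun n => (hw n).mul (isU_u _), hc⟩
  refine ⟨⟨hH, hantiH, ?_⟩, ?_, ?_⟩
  · have hq : ∀ n, ∃ Φ : Γ ⧸ N n ≃* Λ ⧸ H n, ∀ (g : Γ) (x : Λ),
        Φ (g : Γ ⧸ N n) = (x : Λ ⧸ H n) ↔ Good θ (H n) (w n * u (c n)) g x := by
      intro n
      exact exists_quot hθ (hlu n (c n)) (hseq.isU n) (hicc n)
    choose Φ hΦ using hq
    refine ⟨Φ, fun n g x hx => ?_⟩
    have := hH n
    rw [hΦ] at hx ⊢
    exact hx.down (hantiH (Nat.le_succ n)) (hseq.isU (n + 1)) (hc n)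
  · rintro ⟨ε, hε, hheavy⟩
    have h1 : ∀ n, ∃ x, ε ≤ mass (w n * u (c n)) {g | x⁻¹ * g ∈ H n} := by
      intro n
      obtain ⟨x, hx⟩ := hheavy n
      rw [tsum_coset] at hx
      refine ⟨x * c n, hx.trans (le_of_eq ?_)⟩
      rw [mass_mul_u (hw n).1]
      congr 1
      ext g
      change x⁻¹ * g ∈ H n ↔ (x * c n)⁻¹ * (g * c n) ∈ H n
      constructor
      · intro h2
        have h3 := (hH n).conj_mem _ h2 (c n)⁻¹
        have h4 : (c n)⁻¹ * (x⁻¹ * g) * (c n)⁻¹⁻¹ = (x * c n)⁻¹ * (g * c n) := by group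
        rwa [h4] at h3
      · intro h2
        have h3 := (hH n).conj_mem _ h2 (c n)
        have h4 : c n * ((x * c n)⁻¹ * (g * c n)) * (c n)⁻¹ = x⁻¹ * g := by group
        rwa [h4] at h3
    obtain ⟨d, hd1, hd2⟩ := hseq.exists_branch hε h1
    have hseq' := hseq.shift hd2
    have h2 : ∀ n, ε ≤ mass (w n * u (c n) * u (d n)⁻¹) (H n : Set Λ) := by
      intro n
      rw [mass_mul_u (hseq.isU n).1]
      refine (hd1 n).trans (le_of_eq ?_)
      congr 1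
      ext g
      change (d n)⁻¹ * g ∈ H n ↔ g * (d n)⁻¹ ∈ H n
      exact (hH n).mem_comm_iff
    obtain ⟨ξ, hξ1, hξ2⟩ := hseq'.exists_vector hε h2
    have hl' : ∀ n, Level θ (N n) (H n) (w n * u (c n) * u (d n)⁻¹) := by
      intro n
      have := hH n
      exact (hlu n (c n)).mul_right (conj_u_vn_iff _)
    obtain ⟨W, hW, hWn⟩ := exists_unitary hθ hN hbot' hicc hseq' hl' hξ1 hξ2
    refine standard_of_fixed hθ hN hbot' hicc (H := H) hW fun n => ?_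
    have h3 : W = (w n * u (c n) * u (d n)⁻¹) * (star (w n * u (c n) * u (d n)⁻¹) * W) := by
      rw [← mul_assoc _ _ W, (hseq'.isU n).2.2, one_mul]
    rw [h3]
    exact (hl' n).mul_right (conj_vn_iff (hWn n) ((hseq'.isU n).adj.mul hW))
  · rintro ⟨φ, χ, W, hW, hφ⟩
    obtain ⟨x, hx⟩ := hW.exists_cf_ne
    refine ⟨‖cf W x‖ ^ 2, by positivity, fun n => ?_⟩
    have := hN n
    have := hH n
    obtain ⟨y, hy⟩ := heavy_of_standard hθ (hicc n) (hw n) (hlevel n) hW hφ x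
    exact ⟨y, by rw [tsum_coset]; exact hy⟩

variable {G : Type*} [Group G] {Γ Λ : Type*} [Group Γ] [Group Λ]

lemma UnitaryL.isU {w : G → ℂ} (hw : UnitaryL w) : IsU (op w hw.1) := by
  have hm := op_mem w hw.1
  refine ⟨hm, ?_, ?_⟩
  · refine ext_cf (mul_mem (star_mem hm) hm) (one_mem _) fun g => ?_
    rw [cf_mul (star_mem hm), cf_star' hm, cf_op, hw.2.1, cf_one']
  · refine ext_cf (mul_mem hm (star_mem hm)) (one_mem _) fun g => ?_
    rw [cf_mul hm, cf_star' hm, cf_op, hw.2.2, cf_one']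

lemma IsU.unitaryL {W : E G →L[ℂ] E G} (hW : IsU W) : UnitaryL (cf W) := by
  refine ⟨inL_cf hW.1, ?_, ?_⟩
  · rw [← cf_star' hW.1, ← cf_mul (star_mem hW.1), hW.2.1, cf_one']
  · rw [← cf_star' hW.1, ← cf_mul hW.1, hW.2.2, cf_one']

lemma level_of_conjL {θ : (Γ → ℂ) → Λ → ℂ} {Θ : Iso Γ Λ}
    (hΘ : ∀ x : (LG Γ).toStarSubalgebra, cf (Θ x : E Λ →L[ℂ] E Λ) = θ (cf (x : E Γ →L[ℂ] E Γ)))
    {N : Subgroup Γ} {H : Subgroup Λ} {w : Λ → ℂ} (hw : UnitaryL w) (h : ConjL θ N H w) :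
    Level Θ N H (op w hw.1) := by
  intro x
  have hm := op_mem w hw.1
  have h1 := h (cf (x : E Γ →L[ℂ] E Γ)) (inL_cf x.2)
  have hΘx : (Θ x : E Λ →L[ℂ] E Λ) ∈ LG Λ := (Θ x).2
  have hm2 : star (op w hw.1) * (Θ x : E Λ →L[ℂ] E Λ) * op w hw.1 ∈ LG Λ :=
    mul_mem (mul_mem (star_mem hm) hΘx) hm
  have h2 : cf (star (op w hw.1) * (Θ x : E Λ →L[ℂ] E Λ) * op w hw.1) =
      conv (conv (adj w) (θ (cf (x : E Γ →L[ℂ] E Γ)))) w := by
    rw [cf_mul (mul_mem (star_mem hm) hΘx), cf_mul (star_mem hm), cf_star' hm, cf_op, hΘ]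
  constructor
  · intro hx
    refine mem_of_cf hm2 fun c hc => ?_
    rw [h2]
    exact h1.1 (fun g hg => cf_eq_zero_of_mem hx hg) c hc
  · intro hx
    refine mem_of_cf x.2 fun g hg => ?_
    refine h1.2 (fun c hc => ?_) g hg
    rw [← h2]
    exact cf_eq_zero_of_mem hx hc

lemma standard_iff {θ : (Γ → ℂ) → Λ → ℂ} {Θ : Iso Γ Λ}
    (hΘ : ∀ x : (LG Γ).toStarSubalgebra, cf (Θ x : E Λ →L[ℂ] E Λ) = θ (cf (x : E Γ →L[ℂ] E Γ))) :
    Standard Θ ↔ StandardL θ := by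
  have key : ∀ {φ : Γ ≃* Λ} {χ : Γ →* Circle} {W : E Λ →L[ℂ] E Λ}, IsU W → ∀ g : Γ,
      cf ((χ g : ℂ) • (W * u (φ g) * star W)) =
        (χ g : ℂ) • conv (conv (cf W) (elt (φ g))) (adj (cf W)) := by
    intro φ χ W hW g
    have h1 : cf ((χ g : ℂ) • (W * u (φ g) * star W)) = (χ g : ℂ) • cf (W * u (φ g) * star W) :=
      rfl
    rw [h1, cf_mul (mul_mem hW.1 (u_mem_top _)), cf_mul hW.1, cf_u', cf_star' hW.1]
  constructor
  · rintro ⟨φ, χ, W, hW, h⟩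
    refine ⟨φ, χ, cf W, hW.unitaryL, fun g => ?_⟩
    rw [← key hW, ← h g, hΘ (U g), coe_U, cf_u']
  · rintro ⟨φ, χ, w, hw, h⟩
    have hW := hw.isU
    refine ⟨φ, χ, op w hw.1, hW, fun g => ?_⟩
    refine ext_cf (Θ (U g)).2
      (smul_mem' _ (mul_mem (mul_mem hW.1 (u_mem_top _)) (star_mem hW.1))) fun c => ?_
    rw [key hW, cf_op, ← h g, hΘ (U g), coe_U, cf_u']

end Pool.Agent.Helper35.VN
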