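import Pool.Agent.Helper35.VN.Coef

/-!
# Unitaries which conjugate group subalgebras
-/

set_option autoImplicit false
set_option linter.unusedSectionVars false

open scoped ComplexConjugate

noncomputable section

namespace Pool.Agent.Helper35.VN

variable {G : Type*} [Group G]

/-- `H` is relatively icc in `G`: the `H`-conjugacy class of every `g ≠ 1` is infinite. -/
def RelIcc (H : Subgroup G) : Prop := ∀ g : G, g ≠ 1 → {x | ∃ h ∈ H, x = h * g * h⁻¹}.Infinite

/-- A square summable function takes a nonzero value only finitely often. -/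
lemma finite_of_const (f : E G) {a : ℂ} (ha : a ≠ 0) : {x | f x = a}.Finite := by
  have h := (E.summable_sq f).tendsto_cofinite_zero
  have h1 : ∀ᶠ x in Filter.cofinite, ‖f x‖ ^ 2 < ‖a‖ ^ 2 :=
    h.eventually (gt_mem_nhds (by positivity))
  rw [Filter.eventually_cofinite] at h1
  refine h1.subset fun x hx => ?_
  have hx' : f x = a := hx
  simp [hx']

/-- Orthogonality over disjoint sets. -/
lemma sum_norm_ind_sq_le {ι : Type*} (s : Finset ι) (A : ι → Set G)
    (hA : ∀ i ∈ s, ∀ j ∈ s, i ≠ j → Disjoint (A i) (A j)) (f : E G) :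
    ∑ i ∈ s, ‖ind (A i) f‖ ^ 2 ≤ ‖f‖ ^ 2 := by
  have h1 : ∀ i ∈ s, HasSum (fun x => ‖ind (A i) f x‖ ^ 2) (‖ind (A i) f‖ ^ 2) := by
    intro i _
    rw [E.norm_sq_eq_tsum]
    exact (E.summable_sq _).hasSum
  have h2 := hasSum_sum h1
  rw [E.norm_sq_eq_tsum f]
  refine hasSum_le ?_ h2 (E.summable_sq f).hasSum
  intro x
  by_cases hx : ∃ i ∈ s, x ∈ A i
  · obtain ⟨i, hi, hxi⟩ := hx
    rw [Finset.sum_eq_single_of_mem i hi, ind_apply_of_mem hxi]
    intro j hj hji
    rw [ind_apply_of_notMem]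
    · simp
    · intro hxj
      exact Set.disjoint_left.1 (hA j hj i hi hji) hxj hxi
  · push Not at hx
    rw [Finset.sum_eq_zero]
    · positivity
    · intro i hi
      rw [ind_apply_of_notMem (hx i hi)]
      simp

lemma norm_r (k : G) (f : E G) : ‖r k f‖ = ‖f‖ := (perm (Equiv.mulRight k⁻¹)).norm_map f

lemma norm_u (k : G) (f : E G) : ‖u k f‖ = ‖f‖ := (perm (Equiv.mulLeft k)).norm_map f

lemma ind_comm_r {K : Subgroup G} {k : G} (hk : k ∈ K) (f : E G) :
    r k (ind (K : Set G) f) = ind (K : Set G) (r k f) := by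
  ext x
  rw [r_apply]
  by_cases hx : x ∈ K
  · rw [ind_apply_of_mem (SetLike.mem_coe.2 hx),
      ind_apply_of_mem (SetLike.mem_coe.2 (K.mul_mem hx hk)), r_apply]
  · rw [ind_apply_of_notMem (fun h => hx (SetLike.mem_coe.1 h)), ind_apply_of_notMem]
    intro h2
    exact hx ((Subgroup.mul_mem_cancel_right K hk).1 (SetLike.mem_coe.1 h2))

lemma ind_comm_u {K : Subgroup G} {k : G} (hk : k ∈ K) (f : E G) :
    u k (ind (K : Set G) f) = ind (K : Set G) (u k f) := by
  ext x
  rw [u_apply]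
  by_cases hx : x ∈ K
  · rw [ind_apply_of_mem (SetLike.mem_coe.2 hx),
      ind_apply_of_mem (SetLike.mem_coe.2 (K.mul_mem (K.inv_mem hk) hx)), u_apply]
  · rw [ind_apply_of_notMem (fun h => hx (SetLike.mem_coe.1 h)), ind_apply_of_notMem]
    intro h2
    exact hx ((Subgroup.mul_mem_cancel_left K (K.inv_mem hk)).1 (SetLike.mem_coe.1 h2))

lemma ind_comm_of_mem {K : Subgroup G} {y : E G →L[ℂ] E G} (hy : y ∈ vn K) (f : E G) :
    ind (K : Set G) (y f) = y (ind (K : Set G) f) := by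
  rw [mem_vn_iff] at hy
  refine congrArg (fun t => t f) (hy (ind (K : Set G)) fun k hk => ?_)
  ext1 f
  exact ind_comm_u hk f

/-- **Normaliser lemma.** If the unitary `v ∈ L(G)` conjugates `L(H)` into `L(K)`, where `H` is
relatively icc in `G`, then `v ∈ L(K) u_c` for every `c` at which `v` has a nonzero coefficient. -/
theorem mem_coset {H K : Subgroup G} (hicc : RelIcc H) {v : E G →L[ℂ] E G} (hv : v ∈ LG G)
    (hv1 : star v * v = 1) (hv2 : v * star v = 1) (hH : ∀ h ∈ H, v * u h * star v ∈ vn K) {c : G}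
    (hc : cf v c ≠ 0) : v * u c⁻¹ ∈ vn K := by
  classical
  obtain ⟨c, rfl⟩ : ∃ b, c = b⁻¹ := ⟨c⁻¹, (inv_inv c).symm⟩
  rw [inv_inv]
  have e1 : ∀ f, star v (v f) = f := fun f => congrArg (fun t => t f) hv1
  have e2 : ∀ f, v (star v f) = f := fun f => congrArg (fun t => t f) hv2
  set q := ind (K : Set G) with hq
  have qq : ∀ f, q (q f) = q f := fun f => congrArg (fun t => t f) (ind_mul_ind (K : Set G))
  have hqs : star q = q := star_ind _
  set p : E G → E G := fun f => star v (q (v f)) with hp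
  have pp : ∀ f, p (p f) = p f := by
    intro f
    simp only [hp]
    rw [e2, qq]
  have hvr : ∀ (k : G) (f : E G), r k (v f) = v (r k f) := fun k f =>
    congrArg (fun t => t f) (comm_r hv k)
  have hvr' : ∀ (k : G) (f : E G), r k (star v f) = star v (r k f) := fun k f =>
    congrArg (fun t => t f) (comm_r (top_star hv) k)
  have hpr : ∀ k ∈ K, ∀ f, p (r k f) = r k (p f) := by
    intro k hk f
    simp only [hp]
    rw [hvr', ← hvr, ind_comm_r hk]
  have hpu : ∀ h ∈ H, ∀ f, p (u h f) = u h (p f) := by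
    intro h hh f
    simp only [hp]
    have h1 : v (u h f) = (v * u h * star v) (v f) := by
      change _ = v (u h (star v (v f)))
      rw [e1]
    rw [h1, ind_comm_of_mem (hH h hh)]
    change star v (v (u h (star v (q (v f))))) = _
    rw [e1]
  have hpsmul : ∀ (a : ℂ) f, p (a • f) = a • p f := by
    intro a f
    simp only [hp, map_smul]
  -- the mass
  have hmass : ∀ b : G, ‖q (v (dl b))‖ = ‖ind {x | x * b ∈ K} (v (dl 1))‖ := by
    intro b
    rw [← norm_r b (q (v (dl b)))]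
    congr 1
    ext x
    rw [r_apply]
    have h1 : (v (dl b) : E G) (x * b) = (v (dl 1) : E G) x := by
      rw [apply_dl hv, apply_dl hv]
      simp
    by_cases hx : x * b ∈ K
    · rw [hq, ind_apply_of_mem (SetLike.mem_coe.2 hx), ind_apply_of_mem (by exact hx), h1]
    · rw [hq, ind_apply_of_notMem (fun h => hx (SetLike.mem_coe.1 h)),
        ind_apply_of_notMem (by exact hx)]
  have hself : ∀ f, inner ℂ f (p f) = ((‖q (v f)‖ ^ 2 : ℝ) : ℂ) := by
    intro f
    simp only [hp]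
    rw [inner_star_right]
    have h1 : inner ℂ (v f) (q (v f)) = inner ℂ (q (v f)) (q (v f)) := by
      have h2 : inner ℂ (q (v f)) (q (v f)) = inner ℂ (star q (v f)) (q (v f)) := by
        rw [hqs]
      rw [h2, inner_star_left, qq]
    rw [h1, inner_self_eq_norm_sq_to_K]
    norm_cast
  have hinv : ∀ h ∈ H, ‖q (v (dl (h * c)))‖ ^ 2 = ‖q (v (dl c))‖ ^ 2 := by
    intro h hh
    have h1 : ((‖q (v (dl (h * c)))‖ ^ 2 : ℝ) : ℂ) = ((‖q (v (dl c))‖ ^ 2 : ℝ) : ℂ) := by
      rw [← hself, ← hself, ← u_dl, hpu h hh]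
      exact (perm (Equiv.mulLeft h)).inner_map_map _ _
    exact_mod_cast h1
  set t := ‖q (v (dl c))‖ ^ 2 with ht
  have htpos : 0 < t := by
    have h1 : q (v (dl c)) ≠ 0 := by
      intro h0
      apply hc
      have h2 : (q (v (dl c)) : E G) 1 = 0 := by rw [h0]; rfl
      rw [hq, ind_apply_of_mem (SetLike.mem_coe.2 K.one_mem), apply_dl hv, one_mul] at h2
      exact h2
    positivity
  -- finitely many cosets
  have hfin : {A : Set G | ∃ h ∈ H, A = {x | x * (h * c) ∈ K}}.Finite := by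
    by_contra hinf
    obtain ⟨n, hn⟩ := exists_nat_gt (1 / t)
    obtain ⟨s, hs1, hs2⟩ := Set.Infinite.exists_subset_card_eq hinf n
    have h1 := sum_norm_ind_sq_le s (fun A => A) (by
      intro A hA B hB hAB
      obtain ⟨h, hh, rfl⟩ := hs1 hA
      obtain ⟨h', hh', rfl⟩ := hs1 hB
      rw [Set.disjoint_left]
      intro x hx hx'
      apply hAB
      simp only [Set.mem_ofPred_eq] at hx hx'
      ext y
      simp only [Set.mem_ofPred_eq]
      have h2 : (x * (h * c))⁻¹ * (x * (h' * c)) ∈ K := K.mul_mem (K.inv_mem hx) hx'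
      have h3 : y * (h' * c) = y * (h * c) * ((x * (h * c))⁻¹ * (x * (h' * c))) := by group
      rw [h3]
      exact (Subgroup.mul_mem_cancel_right K h2).symm) (v (dl 1))
    have h2 : ∀ A ∈ s, ‖ind A (v (dl 1))‖ ^ 2 = t := by
      intro A hA
      obtain ⟨h, hh, rfl⟩ := hs1 hA
      rw [← hmass, hinv h hh]
    rw [Finset.sum_congr rfl h2, Finset.sum_const, hs2, nsmul_eq_mul] at h1
    have h3 : ‖v (dl (1 : G))‖ ^ 2 = 1 := by
      have h4 : inner ℂ (v (dl (1 : G))) (v (dl 1)) = inner ℂ (dl (1 : G)) (dl 1) := by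
        rw [← inner_star_left, e1]
      rw [inner_self_eq_norm_sq_to_K, inner_self_eq_norm_sq_to_K, norm_dl] at h4
      have h5 : ((‖v (dl (1 : G))‖ ^ 2 : ℝ) : ℂ) = ((1 ^ 2 : ℝ) : ℂ) := by exact_mod_cast h4
      have h6 : ‖v (dl (1 : G))‖ ^ 2 = 1 ^ 2 := by exact_mod_cast h5
      simpa using h6
    rw [h3] at h1
    rw [div_lt_iff₀ htpos] at hn
    linarith
  -- the stabiliser is relatively icc
  have hicc' : ∀ z : G, z ≠ 1 → {x | ∃ m ∈ H, c⁻¹ * m * c ∈ K ∧ x = m * z * m⁻¹}.Infinite := by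
    intro z hz hfin2
    apply hicc z hz
    choose! ρ hρ1 hρ2 using fun (A : Set G)
      (hA : A ∈ {A : Set G | ∃ h ∈ H, A = {x | x * (h * c) ∈ K}}) => hA
    have h3 := hfin.biUnion (t := fun A => (fun x => ρ A * x * (ρ A)⁻¹) ''
      {x | ∃ m ∈ H, c⁻¹ * m * c ∈ K ∧ x = m * z * m⁻¹}) (fun A _ => hfin2.image _)
    refine h3.subset ?_
    rintro x ⟨h, hh, rfl⟩
    have hA : {x | x * (h * c) ∈ K} ∈ {A : Set G | ∃ h ∈ H, A = {x | x * (h * c) ∈ K}} :=
      ⟨h, hh, rfl⟩
    refine Set.mem_biUnion hA ?_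
    set A := {x | x * (h * c) ∈ K} with hAdef
    have h4 : (h * c)⁻¹ ∈ {x | x * (ρ A * c) ∈ K} := by
      rw [← hρ2 A hA, hAdef]
      simp only [Set.mem_ofPred_eq, inv_mul_cancel]
      exact K.one_mem
    simp only [Set.mem_ofPred_eq] at h4
    refine ⟨(ρ A)⁻¹ * h * z * ((ρ A)⁻¹ * h)⁻¹, ⟨(ρ A)⁻¹ * h,
      H.mul_mem (H.inv_mem (hρ1 A hA)) hh, ?_, rfl⟩, by group⟩
    have h5 : c⁻¹ * ((ρ A)⁻¹ * h) * c = ((h * c)⁻¹ * (ρ A * c))⁻¹ := by group
    rw [h5]
    exact K.inv_mem h4
  -- the vector `p δ_c`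
  have hz : ∀ z : G, z ≠ 1 → (p (dl c) : E G) (z * c) = 0 := by
    intro z hz
    by_contra hne
    apply hicc' z hz
    have h1 := finite_of_const (p (dl c)) hne
    refine ((h1.image (fun x => x * c⁻¹))).subset ?_
    rintro x ⟨m, hm, hmK, rfl⟩
    refine ⟨m * z * m⁻¹ * c, ?_, by group⟩
    simp only [Set.mem_ofPred_eq]
    have hk : c⁻¹ * m⁻¹ * c ∈ K := by
      have : c⁻¹ * m⁻¹ * c = (c⁻¹ * m * c)⁻¹ := by group
      rw [this]
      exact K.inv_mem hmK
    have h2 : u m (dl c) = r (c⁻¹ * m⁻¹ * c) (dl c) := by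
      rw [u_dl, r_dl]
      congr 1
      group
    have h3 : u m (p (dl c)) = r (c⁻¹ * m⁻¹ * c) (p (dl c)) := by
      rw [← hpu m hm, ← hpr _ hk, h2]
    have h4 := congrArg (fun f : E G => f (m * z * c)) h3
    simp only [u_apply, r_apply] at h4
    rw [show m⁻¹ * (m * z * c) = z * c by group,
      show m * z * c * (c⁻¹ * m⁻¹ * c) = m * z * m⁻¹ * c by group] at h4
    exact h4.symm
  set a := (p (dl c) : E G) c with ha
  have hpa : p (dl c) = a • dl c := by
    ext x
    rw [E.smul_apply, dl_apply]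
    by_cases hx : x = c
    · rw [if_pos hx, hx, mul_one]
    · rw [if_neg hx, mul_zero]
      have h1 := hz (x * c⁻¹) (by
        intro h2
        exact hx (mul_inv_eq_one.1 h2))
      rwa [inv_mul_cancel_right] at h1
  have hat : a = ((t : ℝ) : ℂ) := by
    rw [ha, ← inner_dl, hself]
  have ha0 : a ≠ 0 := by
    rw [hat]
    exact_mod_cast htpos.ne'
  have ha1 : a = 1 := by
    have h1 := pp (dl c)
    rw [hpa, hpsmul, hpa, smul_smul] at h1
    have h2 := congrArg (fun f : E G => f c) h1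
    simp only [E.smul_apply, dl_apply, if_true, mul_one] at h2
    exact mul_left_cancel₀ ha0 (by rw [h2, mul_one])
  have hfinal : q (v (dl c)) = v (dl c) := by
    rw [ha1, one_smul] at hpa
    rw [← e2 (q (v (dl c)))]
    exact congrArg v hpa
  refine mem_of_cf (top_mul hv (u_mem_top c)) fun g hg => ?_
  change (v (u c (dl 1)) : E G) g = 0
  rw [u_dl, mul_one, ← hfinal, hq, ind_apply_of_notMem (fun h => hg (SetLike.mem_coe.1 h))]

end Pool.Agent.Helper35.VN
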