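import Pool.Agent.Helper35.VN.Normalizer

/-!
# Trace-preserving isomorphisms of group von Neumann algebras are spatial
-/

set_option autoImplicit false
set_option linter.unusedSectionVars false

open scoped ComplexConjugate

noncomputable section

namespace Pool.Agent.Helper35.VN

variable {G : Type*} [Group G] {Γ Λ : Type*} [Group Γ] [Group Λ]

/-- The type of `*`-isomorphisms between the group von Neumann algebras. -/
abbrev Iso (Γ Λ : Type*) [Group Γ] [Group Λ] :=
  (LG Γ).toStarSubalgebra ≃⋆ₐ[ℂ] (LG Λ).toStarSubalgebra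

/-- The isomorphism preserves the canonical trace `τ(x) = ⟨δ_1, x δ_1⟩`. -/
def TracePreserving (θ : Iso Γ Λ) : Prop :=
  ∀ x, cf (θ x : E Λ →L[ℂ] E Λ) 1 = cf (x : E Γ →L[ℂ] E Γ) 1

/-- The operator `u g` as an element of `L(G)`. -/
def U (g : G) : (LG G).toStarSubalgebra := ⟨u g, u_mem_top g⟩

@[simp] lemma coe_U (g : G) : ((U g : (LG G).toStarSubalgebra) : E G →L[ℂ] E G) = u g := rfl

lemma mem_LG (x : (LG G).toStarSubalgebra) : (x : E G →L[ℂ] E G) ∈ LG G := x.2

lemma inner_apply_dl (x y : E G →L[ℂ] E G) :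
    inner ℂ (x (dl (1 : G))) (y (dl 1)) = cf (star x * y) 1 := by
  rw [cf_eq_inner]
  change _ = inner ℂ (dl 1) (star x (y (dl 1)))
  rw [inner_star_right]

lemma TracePreserving.inner_eq {θ : Iso Γ Λ} (hθ : TracePreserving θ)
    (x y : (LG Γ).toStarSubalgebra) :
    inner ℂ ((θ x : E Λ →L[ℂ] E Λ) (dl 1)) ((θ y : E Λ →L[ℂ] E Λ) (dl 1)) =
      inner ℂ ((x : E Γ →L[ℂ] E Γ) (dl 1)) ((y : E Γ →L[ℂ] E Γ) (dl 1)) := by
  rw [inner_apply_dl, inner_apply_dl]
  have h := hθ (star x * y)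
  rw [map_mul, map_star] at h
  exact h

lemma TracePreserving.symm {θ : Iso Γ Λ} (hθ : TracePreserving θ) : TracePreserving θ.symm := by
  intro x
  have h := hθ (θ.symm x)
  rw [StarAlgEquiv.apply_symm_apply] at h
  exact h.symm

/-- The isometry which maps `δ_g` to the members of an orthonormal family. -/
lemma exists_isometry_of_orthonormal {F : Type*} [NormedAddCommGroup F] [InnerProductSpace ℂ F]
    [CompleteSpace F] {v : G → F} (hv : Orthonormal ℂ v) :
    ∃ V : E G →ₗᵢ[ℂ] F, ∀ g, V (dl g) = v g := by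
  classical
  have h : ∀ g, hv.orthogonalFamily.linearIsometry
      (lp.single 2 g (1 : ℂ) : lp (fun _ : G => ℂ) 2) = v g := by
    intro g
    rw [OrthogonalFamily.linearIsometry_apply_single]
    simp
  set V : lp (fun _ : G => ℂ) 2 →ₗᵢ[ℂ] F := hv.orthogonalFamily.linearIsometry with hV
  exact ⟨V, h⟩

lemma TracePreserving.exists_isometry {θ : Iso Γ Λ} (hθ : TracePreserving θ) :
    ∃ V : E Γ →ₗᵢ[ℂ] E Λ, ∀ x : (LG Γ).toStarSubalgebra,
      V ((x : E Γ →L[ℂ] E Γ) (dl 1)) = (θ x : E Λ →L[ℂ] E Λ) (dl 1) := by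
  classical
  have hon : Orthonormal ℂ (fun g : Γ => ((θ (U g) : E Λ →L[ℂ] E Λ) (dl 1) : E Λ)) := by
    rw [orthonormal_iff_ite]
    intro g h
    rw [hθ.inner_eq, coe_U, coe_U, u_dl, u_dl, mul_one, mul_one, inner_dl, dl_apply]
  obtain ⟨V, hVdl⟩ := exists_isometry_of_orthonormal hon
  refine ⟨V, fun x => ?_⟩
  set ξ := (x : E Γ →L[ℂ] E Γ) (dl 1) with hξ
  set η := (θ x : E Λ →L[ℂ] E Λ) (dl 1) with hη
  have h1 : inner ℂ η η = inner ℂ ξ ξ := hθ.inner_eq x x
  have h2 : inner ℂ (V ξ) η = inner ℂ ξ ξ := by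
    have h3 := (hasSum_dl ξ).mapL V.toContinuousLinearMap
    have h4 : HasSum (fun g => inner ℂ η (ξ g • V (dl g))) (inner ℂ η (V ξ)) := by
      have := h3.mapL (innerSL ℂ η)
      simpa using this
    have h5 := (hasSum_dl ξ).mapL (innerSL ℂ ξ)
    have h6 : (fun g => inner ℂ η (ξ g • V (dl g))) = fun g => innerSL ℂ ξ (ξ g • dl g) := by
      funext g
      rw [innerSL_apply_apply, inner_smul_right, inner_smul_right, hVdl, hη, hθ.inner_eq, coe_U,
        u_dl, mul_one]
    rw [h6] at h4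
    have h7 := h4.unique h5
    rw [innerSL_apply_apply] at h7
    rw [← inner_conj_symm, h7, inner_conj_symm]
  have h3 : inner ℂ (V ξ - η) (V ξ - η) = 0 := by
    rw [inner_sub_left, inner_sub_right, inner_sub_right, V.inner_map_map, h2, h1]
    have h8 : inner ℂ η (V ξ) = inner ℂ ξ ξ := by
      rw [← inner_conj_symm, h2, inner_conj_symm]
    rw [h8]
    ring
  exact sub_eq_zero.1 (inner_self_eq_zero.1 h3)

/-- A trace-preserving isomorphism is implemented by a unitary operator. -/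
theorem TracePreserving.spatial {θ : Iso Γ Λ} (hθ : TracePreserving θ) :
    ∃ V : E Γ ≃ₗᵢ[ℂ] E Λ, V (dl 1) = dl 1 ∧ ∀ (x : (LG Γ).toStarSubalgebra) (f : E Γ),
      V ((x : E Γ →L[ℂ] E Γ) f) = (θ x : E Λ →L[ℂ] E Λ) (V f) := by
  obtain ⟨A, hA⟩ := hθ.exists_isometry
  obtain ⟨B, hB⟩ := hθ.symm.exists_isometry
  have hAdl : ∀ g : Γ, A (dl g) = (θ (U g) : E Λ →L[ℂ] E Λ) (dl 1) := by
    intro g
    rw [← hA, coe_U, u_dl, mul_one]
  have hBdl : ∀ g : Λ, B (dl g) = (θ.symm (U g) : E Γ →L[ℂ] E Γ) (dl 1) := by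
    intro g
    rw [← hB, coe_U, u_dl, mul_one]
  have ext1 : ∀ {Δ : Type _} [Group Δ] (S T : E Δ →L[ℂ] E Δ), (∀ g, S (dl g) = T (dl g)) →
      ∀ f, S f = T f := by
    intro Δ _ S T h f
    have h1 := (hasSum_dl f).mapL S
    have h2 := (hasSum_dl f).mapL T
    have h3 : (fun g => S (f g • dl g)) = fun g => T (f g • dl g) := by
      funext g
      rw [map_smul, map_smul, h]
    rw [h3] at h1
    exact h1.unique h2
  have hBA : ∀ f, B (A f) = f := by
    refine ext1 (B.toContinuousLinearMap.comp A.toContinuousLinearMap)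
      (ContinuousLinearMap.id ℂ _) ?_
    intro g
    simp only [ContinuousLinearMap.comp_apply, ContinuousLinearMap.id_apply,
      LinearIsometry.coe_toContinuousLinearMap]
    rw [hAdl, hB, StarAlgEquiv.symm_apply_apply, coe_U, u_dl, mul_one]
  have hAB : ∀ f, A (B f) = f := by
    intro f
    have h1 := (hasSum_dl f).mapL (A.toContinuousLinearMap.comp B.toContinuousLinearMap)
    have h2 := hasSum_dl f
    have h3 : (fun g => (A.toContinuousLinearMap.comp B.toContinuousLinearMap) (f g • dl g)) =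
        fun g => f g • dl g := by
      funext g
      rw [map_smul]
      simp only [ContinuousLinearMap.comp_apply, LinearIsometry.coe_toContinuousLinearMap]
      rw [hBdl, hA, StarAlgEquiv.apply_symm_apply, coe_U, u_dl, mul_one]
    rw [h3] at h1
    exact h1.unique h2
  refine ⟨{ A.toLinearMap with
      invFun := B
      left_inv := hBA
      right_inv := hAB
      norm_map' := A.norm_map }, ?_, ?_⟩
  · change A (dl 1) = dl 1
    rw [hAdl]
    have : (U (1 : Γ) : (LG Γ).toStarSubalgebra) = 1 := Subtype.ext u_one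
    rw [this, map_one]
    rfl
  · intro x f
    change A ((x : E Γ →L[ℂ] E Γ) f) = (θ x : E Λ →L[ℂ] E Λ) (A f)
    have h1 := (hasSum_dl f).mapL (A.toContinuousLinearMap.comp (x : E Γ →L[ℂ] E Γ))
    have h2 := (hasSum_dl f).mapL ((θ x : E Λ →L[ℂ] E Λ).comp A.toContinuousLinearMap)
    have h3 : (fun g => (A.toContinuousLinearMap.comp (x : E Γ →L[ℂ] E Γ)) (f g • dl g)) =
        fun g => ((θ x : E Λ →L[ℂ] E Λ).comp A.toContinuousLinearMap) (f g • dl g) := by
      funext g
      rw [map_smul, map_smul]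
      congr 1
      simp only [ContinuousLinearMap.comp_apply, LinearIsometry.coe_toContinuousLinearMap]
      rw [hAdl]
      have h4 : (x : E Γ →L[ℂ] E Γ) (dl g) = ((x * U g : (LG Γ).toStarSubalgebra) :
          E Γ →L[ℂ] E Γ) (dl 1) := by
        change _ = (x : E Γ →L[ℂ] E Γ) (u g (dl 1))
        rw [u_dl, mul_one]
      rw [h4, hA, map_mul]
      rfl
    rw [h3] at h1
    exact h1.unique h2

end Pool.Agent.Helper35.VN
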